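import Pool.Agent.W602.TL.Contra
import Pool.Agent.W603.BP.Rat

/-!
From a pointwise bound near infinity to rationality of the quotients.
-/

set_option autoImplicit false

namespace Pool.Agent.W601.PH

open Filter Metric Real Set Topology Pool.Agent.H159R3.NV Pool.Agent.W602.NC Pool.Agent.W602.TL

variable {p : ℕ}

/-- from a pointwise bound to a bound for the mean -/
theorem circle2 {d κ K : ℕ} (c : Fin (p + 1) → ℕ) (hκ : 0 < κ) {C a : ℝ} (hC : 1 ≤ C) (ha : 1 ≤ a)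
    {U : Fin (p + 1) → ℂ → ℂ}
    (hU : ∀ i, Differentiable ℂ (U i)) (hU0 : ∀ i, U i 0 ≠ 0) {P : ℂ → ℂ}
    (hP : Differentiable ℂ P) (hP0 : P 0 ≠ 0)
    (hord : ∀ z, analyticOrderAt (fun z => ∏ i, U i z ^ c i) z ≤ analyticOrderAt P z)
    (hpt : ∀ z ε, a ≤ ‖z‖ → 0 < ε → ε ≤ 1 → GoodAt U z ε →
      ‖P z‖ * sup U z ^ κ ≤ C * ‖z‖ ^ K * (1 / ε) ^ d * ∏ i, ‖U i z‖ ^ c i) :
    ∃ A B : ℝ, 0 ≤ A ∧ 0 ≤ B ∧ ∀ s ε : ℝ, a ≤ s → 0 < ε → ε ≤ 1 →
      (∀ z, ‖z‖ = s → GoodAt U z ε) → tau U s ≤ A + B * Real.log (1 / ε) + K * Real.log s := by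
  set Q : ℂ → ℂ := fun z => ∏ i, U i z ^ c i with hQdef
  have hQ : Differentiable ℂ Q := Differentiable.fun_finsetProd fun i _ => (hU i).pow (c i)
  have hQ0 : Q 0 ≠ 0 := Finset.prod_ne_zero_iff.mpr fun i _ => pow_ne_zero _ (hU0 i)
  refine ⟨Real.log C + |Real.log ‖P 0 / Q 0‖|, d, ?_, Nat.cast_nonneg _, ?_⟩
  · have := Real.log_nonneg hC
    positivity
  intro s ε has hε hε1 hgood
  have hs1 : 1 ≤ s := ha.trans has
  have hs : 0 < s := by linarith
  have hne : ∀ z, ‖z‖ = s → ∀ i, U i z ≠ 0 :=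
    fun z hz i => (hgood z hz).1 i z (mem_closedBall_self hε.le)
  have hlogε : 0 ≤ Real.log (1 / ε) := Real.log_nonneg (by rw [le_div_iff₀ hε]; linarith)
  have hlogs : 0 ≤ Real.log s := Real.log_nonneg hs1
  -- Jensen
  have h1 : Real.log ‖P 0 / Q 0‖ ≤ L P s - L Q s := by
    have h2 := jensen_ge (f := fun z => P z / Q z) hs (quot_mero hQ hP)
      (fun z _ => quot_order (hP.analyticAt z) (hQ.analyticAt z) (finite_order hQ hQ0 z) (hord z))
      ((hP.analyticAt 0).div (hQ.analyticAt 0) hQ0) (div_ne_zero hP0 hQ0)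
    rwa [L_quot hQ hP (x := 0) (y := 0) hQ0 hP0 hs.ne'] at h2
  have hLQ : L Q s = ∑ i, c i * L (U i) s := by
    have e1 := L_prod Finset.univ (fun i z => U i z ^ c i) (fun i => (hU i).pow (c i))
      (fun i => pow_ne_zero _ (hU0 i)) hs.ne'
    have e2 : L Q s = ∑ i, L (fun z => U i z ^ c i) s := e1
    rw [e2]
    exact Finset.sum_congr rfl fun i _ => L_pow (c i) s
  -- the upper bound
  have hGint : CircleIntegrable (fun z => Real.log (sup U z)) 0 s :=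
    tau_int hU hs fun z hz => ⟨0, hne z hz 0⟩
  have hUint : ∀ i, CircleIntegrable (fun z => (c i : ℝ) * Real.log ‖U i z‖) 0 s := fun i =>
    (ci_log (mero_of_diff (hU i)) s).const_fun_smul (a := (c i : ℝ))
  have hsumint : CircleIntegrable (fun z => ∑ i, (c i : ℝ) * Real.log ‖U i z‖) 0 s :=
    CircleIntegrable.fun_sum _ (fun i _ => hUint i)
  have hGint' : CircleIntegrable (fun z => (κ : ℝ) * Real.log (sup U z)) 0 s :=
    hGint.const_fun_smul (a := (κ : ℝ))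
  set c0 : ℝ := Real.log C + K * Real.log s + d * Real.log (1 / ε) with hc0
  have i3 : CircleIntegrable (fun z => c0 + ∑ i, (c i : ℝ) * Real.log ‖U i z‖) 0 s :=
    (circleIntegrable_const _ _ _).add hsumint
  have e1 : c0 + ∑ i, c i * L (U i) s - κ * tau U s
      = Real.circleAverage (fun z => (c0 + ∑ i, (c i : ℝ) * Real.log ‖U i z‖)
        - (κ : ℝ) * Real.log (sup U z)) 0 s := by
    rw [Real.circleAverage_fun_sub i3 hGint', Real.circleAverage_fun_add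
      (circleIntegrable_const _ _ _) hsumint, Real.circleAverage_const]
    have e2 : Real.circleAverage (fun z => ∑ i, (c i : ℝ) * Real.log ‖U i z‖) 0 s
        = ∑ i, c i * L (U i) s := by
      rw [Real.circleAverage_fun_sum (fun i _ => hUint i)]
      refine Finset.sum_congr rfl fun i _ => ?_
      have e3 := Real.circleAverage_fun_smul (a := (c i : ℝ))
        (f := fun z => Real.log ‖U i z‖) (c := (0 : ℂ)) (R := s)
      simp only [smul_eq_mul] at e3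
      rw [e3]
      rfl
    have e4 : Real.circleAverage (fun z => (κ : ℝ) * Real.log (sup U z)) 0 s = κ * tau U s := by
      have e3 := Real.circleAverage_fun_smul (a := (κ : ℝ))
        (f := fun z => Real.log (sup U z)) (c := (0 : ℂ)) (R := s)
      simp only [smul_eq_mul] at e3
      rw [e3]
      rfl
    rw [e2, e4]
  have h2 : L P s ≤ c0 + ∑ i, c i * L (U i) s - κ * tau U s := by
    rw [e1]
    apply avg_le_cod (ci_log (mero_of_diff hP) s) (i3.sub hGint') hs.ne'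
    filter_upwards [ne_cod hP hP0 s, self_mem_codiscreteWithin _] with z hz hzs
    have hz' := sph_norm hs hzs
    have h3 := hpt z ε (by rw [hz']; exact has) hε hε1 (hgood z hz')
    rw [hz'] at h3
    have hsp : 0 < sup U z := sup_pos (hne z hz' 0)
    have hPp : 0 < ‖P z‖ := norm_pos_iff.mpr hz
    have hprod : (∏ i, ‖U i z‖ ^ c i) ≠ 0 :=
      Finset.prod_ne_zero_iff.mpr fun i _ => pow_ne_zero _ (norm_ne_zero_iff.mpr (hne z hz' i))
    have hCs : C * s ^ K ≠ 0 := mul_ne_zero (by linarith) (pow_ne_zero _ hs.ne')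
    have hCe : C * s ^ K * (1 / ε) ^ d ≠ 0 := mul_ne_zero hCs (pow_ne_zero _ (by positivity))
    have h4 := Real.log_le_log (mul_pos hPp (pow_pos hsp κ)) h3
    rw [Real.log_mul hPp.ne' (pow_pos hsp κ).ne', Real.log_mul hCe hprod,
      Real.log_mul hCs (pow_ne_zero _ (by positivity)),
      Real.log_mul (by linarith) (pow_ne_zero _ hs.ne'), Real.log_pow, Real.log_pow,
      Real.log_pow, Real.log_prod (fun i _ => pow_ne_zero _ (norm_ne_zero_iff.mpr (hne z hz' i)))] at h4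
    simp only [Real.log_pow] at h4
    change Real.log ‖P z‖ ≤ (c0 + ∑ i, (c i : ℝ) * Real.log ‖U i z‖)
        - (κ : ℝ) * Real.log (sup U z)
    rw [hc0]
    linarith
  have hκ1 : (1 : ℝ) ≤ κ := by exact_mod_cast hκ
  have h5 : κ * tau U s ≤ (Real.log C + |Real.log ‖P 0 / Q 0‖|) + d * Real.log (1 / ε)
      + K * Real.log s := by
    rw [hLQ] at h1
    have := neg_abs_le (Real.log ‖P 0 / Q 0‖)
    rw [hc0] at h2
    linarith
  have hX : 0 ≤ (Real.log C + |Real.log ‖P 0 / Q 0‖|) + d * Real.log (1 / ε)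
      + K * Real.log s := by
    have := Real.log_nonneg hC
    positivity
  by_cases ht : 0 ≤ tau U s
  · nlinarith
  · push Not at ht
    linarith

/-- logarithmic growth -/
theorem log_growth2 {g : Fin (p + 1) → ℂ → ℂ} (hg : ∀ i, Differentiable ℂ (g i))
    (hg0 : ∀ i, g i 0 ≠ 0) {a : ℝ} (ha : 1 ≤ a) {K : ℕ}
    (hAB : ∃ A B : ℝ, 0 ≤ A ∧ 0 ≤ B ∧ ∀ s ε : ℝ, a ≤ s → 0 < ε → ε ≤ 1 →
      (∀ z, ‖z‖ = s → GoodAt g z ε) → tau g s ≤ A + B * Real.log (1 / ε) + K * Real.log s) :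
    ∃ Λ K1 K2 : ℝ, Base g Λ ∧ 0 ≤ K2 ∧ ∀ r, a ≤ r → SS g Λ r ≤ K1 + K2 * Real.log (r + 3) := by
  set Λ : ℝ := ∑ j, |Real.log ‖g j 0‖| with hΛdef
  have hΛ : ∀ j, |Real.log ‖g j 0‖| ≤ Λ := fun j =>
    Finset.single_le_sum (f := fun j => |Real.log ‖g j 0‖|) (fun i _ => abs_nonneg _)
      (Finset.mem_univ j)
  have hΛ0 : 0 ≤ Λ := Finset.sum_nonneg fun i _ => abs_nonneg _
  have hB : Base g Λ := ⟨hg, hg0, hΛ0, hΛ⟩
  obtain ⟨A0, B, hA0, hB0, hAB0⟩ := hAB
  set A : ℝ := A0 + Λ with hAdef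
  have hA : 0 ≤ A := by positivity
  refine ⟨Λ, 1 + 2 * ((p + 1) * (A + B * Real.log 2)) + 2 * ((p + 1) * B) * 7
    + 576 * ((p + 1) * B) ^ 2, 2 * ((p + 1) * K) + 2 * ((p + 1) * B) * 3, hB, by positivity, ?_⟩
  intro r0 har0
  have hr0 : 1 ≤ r0 := ha.trans har0
  have hlog2 : 0 ≤ Real.log 2 := Real.log_nonneg (by norm_num)
  have hlog3 : 0 ≤ Real.log (r0 + 3) := Real.log_nonneg (by linarith)
  have hrec : ∀ r δ, r0 ≤ r → 0 < δ → δ ≤ 1 → r + 4 * δ ≤ r0 + 3 →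
      SS g Λ r ≤ ((p + 1) * (A + B * Real.log 2) + (p + 1) * K * Real.log (r0 + 3))
        + (p + 1) * B * Real.log
        (1000 * (r + 4 * δ) ^ 3 * (SS g Λ (r + 4 * δ) + 1) ^ 2 / δ ^ 4) := by
    intro r δ h1 h2 h3 h4r
    have hr1 : 1 ≤ r := hr0.trans h1
    obtain ⟨s, ε, hrs, hsr, hε, hε1, hεX, h0, hb⟩ := hB.good hr1 h2 h3
    have hs : 0 < s := by linarith
    have hne : ∀ z, ‖z‖ = s → ∀ i, g i z ≠ 0 :=
      fun z hz i => h0 z hz i z (mem_closedBall_self hε.le)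
    have h4 := hAB0 s ε (har0.trans (h1.trans hrs)) hε hε1 fun z hz => ⟨h0 z hz, hb z hz⟩
    have hls : (K : ℝ) * Real.log s ≤ K * Real.log (r0 + 3) :=
      mul_le_mul_of_nonneg_left (Real.log_le_log hs (by linarith)) (Nat.cast_nonneg K)
    set X : ℝ := 1000 * (r + 4 * δ) ^ 3 * (SS g Λ (r + 4 * δ) + 1) ^ 2 / δ ^ 4 with hX
    have hSnn := hB.SS_nonneg (R := r + 4 * δ) (by linarith)
    have hXpos : 0 < X := by positivity
    have h5 : Real.log (1 / ε) ≤ Real.log 2 + Real.log X := by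
      rw [← Real.log_mul (by norm_num) hXpos.ne']
      exact Real.log_le_log (by positivity) hεX
    have h6 : SS g Λ s ≤ (p + 1) * (tau g s + Λ) := by
      unfold SS
      calc ∑ j, (T2 (g 0) (g j) s + Λ) ≤ ∑ _j : Fin (p + 1), (tau g s + Λ) :=
            Finset.sum_le_sum fun j _ => by linarith [T2_le_tau hg hs hne j]
        _ = (p + 1) * (tau g s + Λ) := by simp; ring
    have h7 := hB.SS_mono (by linarith : 0 < r) hrs
    have h8 : B * Real.log (1 / ε) ≤ B * (Real.log 2 + Real.log X) :=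
      mul_le_mul_of_nonneg_left h5 hB0
    have h9 : (p + 1) * (tau g s + Λ) ≤ (p + 1) * (A + B * (Real.log 2 + Real.log X)
        + K * Real.log (r0 + 3)) :=
      mul_le_mul_of_nonneg_left (by linarith) (by positivity)
    calc SS g Λ r ≤ (p + 1) * (A + B * (Real.log 2 + Real.log X) + K * Real.log (r0 + 3)) := by
          linarith
      _ = _ := by ring
  have hgrow := growth (SS g Λ) ((p + 1) * (A + B * Real.log 2) + (p + 1) * K * Real.log (r0 + 3))
    ((p + 1) * B) r0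
    (SS g Λ (r0 + 3)) (by positivity) (by positivity) hr0
    (fun r h1 h2 => hB.SS_mono (by linarith) h2) hrec (fun r h1 => hB.SS_nonneg (by linarith))
  refine hgrow.trans (le_of_eq ?_)
  ring

/-- the quotients are rational near infinity -/
theorem quot_rational {g : Fin (p + 1) → ℂ → ℂ} {Λ K1 K2 a : ℝ} (hB : Base g Λ) (hK2 : 0 ≤ K2)
    (ha : 1 ≤ a) (hgr : ∀ r, a ≤ r → SS g Λ r ≤ K1 + K2 * Real.log (r + 3)) (j : Fin (p + 1)) :
    ∃ R : ℂ → ℂ, MeromorphicAt (fun w => R w⁻¹) 0 ∧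
      ∃ R0 : ℝ, ∀ z, R0 < ‖z‖ → g j z = R z * g 0 z := by
  refine Pool.Agent.W603.BP.rational_quot (hB.hv 0) (hB.hv j) (hB.hv0 0) (hB.hv0 j)
    (A := 2 * (K1 + K2 * Real.log 4)) (B := 2 * K2) (ρ0 := a) ?_
  intro ρ hρ
  have hρ1 : 1 ≤ ρ := ha.trans hρ
  have hρ0 : 0 < ρ := by linarith
  have hl4 : Real.log (ρ + 3) ≤ Real.log 4 + Real.log ρ := by
    rw [← Real.log_mul (by norm_num) hρ0.ne']
    exact Real.log_le_log (by linarith) (by linarith)
  have hSS : SS g Λ ρ ≤ (K1 + K2 * Real.log 4) + K2 * Real.log ρ := by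
    have h1 := hgr ρ hρ
    have h2 := mul_le_mul_of_nonneg_left hl4 hK2
    linarith
  have hterm : ∀ i, 0 ≤ T2 (g 0) (g i) ρ + Λ := by
    intro i
    have l0 := T2_ge_L0 (g 0) (g i) ρ
    have c0 := hB.L_ge 0 hρ0
    linarith
  have t1 : T2 (g 0) (g j) ρ + Λ ≤ SS g Λ ρ :=
    Finset.single_le_sum (f := fun i => T2 (g 0) (g i) ρ + Λ) (fun i _ => hterm i)
      (Finset.mem_univ j)
  have t0 := hterm j
  have l0 := T2_ge_L0 (g 0) (g j) ρ
  have lj := T2_ge_L (hB.hv 0) (hB.hv j) (hB.hv0 0) (hB.hv0 j) hρ0.ne'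
  have b0 := abs_le.mp (hB.hΛ 0)
  have bj := abs_le.mp (hB.hΛ j)
  have c0 := hB.L_ge 0 hρ0
  have cj := hB.L_ge j hρ0
  refine ⟨fun _ => 1, g 0, g j, hB.hv 0, hB.hv j, fun z => (one_mul _).symm,
    fun z => (one_mul _).symm, ?_, ?_, ?_⟩ <;> linarith

end Pool.Agent.W601.PH
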