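import Pool.Agent.W601.PH.Ext
import Pool.Agent.W601.SM.Arr
import Pool.Agent.W603.BP.Extn

/-!
Ramified holomorphic maps from the punctured disc to projective space extend.
-/

set_option autoImplicit false

namespace Pool.Agent.W601.PH

open Filter Metric Set Topology Pool.Agent.W601.SM Pool.Agent.W603.BP MvPolynomial

theorem exists_weights {q D : ℕ} {w : Fin q → ℝ} (hw0 : ∀ i, 0 ≤ w i) (hw1 : ∀ i, w i ≤ 1)
    (h : 2 * (D : ℝ) < ∑ i, w i) :
    ∃ (A : ℕ) (c : Fin q → ℕ), (∀ i, c i ≤ A) ∧ 2 * D * A < ∑ i, c i ∧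
      ∀ i, (c i : ℝ) ≤ A * w i := by
  obtain ⟨A, hA⟩ := exists_nat_gt ((q : ℝ) / (∑ i, w i - 2 * D))
  have hpos : 0 < ∑ i, w i - 2 * (D : ℝ) := by linarith
  rw [div_lt_iff₀ hpos] at hA
  refine ⟨A, fun i => ⌊A * w i⌋₊, fun i => ?_, ?_, fun i => ?_⟩
  · have h1 : (A : ℝ) * w i ≤ A := by nlinarith [hw1 i, (Nat.cast_nonneg A : (0 : ℝ) ≤ A)]
    have h2 : (⌊A * w i⌋₊ : ℝ) ≤ A := (Nat.floor_le (mul_nonneg (Nat.cast_nonneg A) (hw0 i))).trans h1
    exact_mod_cast h2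
  · have h1 : ∀ i, (A : ℝ) * w i - 1 ≤ (⌊A * w i⌋₊ : ℝ) := fun i => by
      have := Nat.lt_floor_add_one ((A : ℝ) * w i)
      linarith
    have h2 : ∑ i, ((A : ℝ) * w i - 1) ≤ ∑ i, (⌊A * w i⌋₊ : ℝ) := Finset.sum_le_sum fun i _ => h1 i
    rw [Finset.sum_sub_distrib, ← Finset.mul_sum] at h2
    simp only [Finset.sum_const, Finset.card_univ, Fintype.card_fin, nsmul_eq_mul, mul_one] at h2
    have h3 : (2 * (D : ℝ) * A) < ∑ i, (⌊A * w i⌋₊ : ℝ) := by nlinarith
    exact_mod_cast h3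
  · exact Nat.floor_le (mul_nonneg (Nat.cast_nonneg A) (hw0 i))

theorem MRel.add {e f g : ℂ → ℂ} (h1 : MRel e g) (h2 : MRel f g) :
    MRel (fun w => e w + f w) g := by
  obtain ⟨ρ, hρ, he⟩ := h1
  obtain ⟨σ, hσ, hf⟩ := h2
  refine ⟨fun w => ρ w + σ w, hρ.fun_add hσ, ?_⟩
  filter_upwards [he, hf] with w a1 a2
  rw [a1, a2]; ring

theorem MRel.const_mul {e g : ℂ → ℂ} (c : ℂ) (h1 : MRel e g) : MRel (fun w => c * e w) g := by
  obtain ⟨ρ, hρ, he⟩ := h1
  refine ⟨fun w => c * ρ w, (MeromorphicAt.const c 0).fun_mul hρ, ?_⟩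
  filter_upwards [he] with w a1
  rw [a1]; ring

theorem MRel.zero (g : ℂ → ℂ) : MRel (fun _ => 0) g :=
  ⟨fun _ => 0, MeromorphicAt.const 0 0, Eventually.of_forall fun w => by rw [zero_mul]⟩

theorem MRel.sum {ι : Type*} (s : Finset ι) {e : ι → ℂ → ℂ} {g : ℂ → ℂ}
    (h : ∀ i ∈ s, MRel (e i) g) : MRel (fun w => ∑ i ∈ s, e i w) g := by
  classical
  induction s using Finset.induction_on with
  | empty =>
    simp only [Finset.sum_empty]
    exact MRel.zero g
  | insert a s ha ih =>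
    simp only [Finset.sum_insert ha]
    exact MRel.add (h a (Finset.mem_insert_self a s))
      (ih fun i hi => h i (Finset.mem_insert_of_mem hi))

/-- the coordinates are linear combinations of the linear forms -/
theorem exists_coeff {n q : ℕ} {ℓ : Fin q → Fin (n + 1) → ℂ}
    (hspan : ∀ w : Fin (n + 1) → ℂ, (∀ i, ∑ j, ℓ i j * w j = 0) → w = 0) :
    ∃ b : Fin (n + 1) → Fin q → ℂ, ∀ (w : Fin (n + 1) → ℂ) (j : Fin (n + 1)),
      w j = ∑ i, b j i * ∑ l, ℓ i l * w l := by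
  classical
  let T : (Fin (n + 1) → ℂ) →ₗ[ℂ] (Fin q → ℂ) := LinearMap.pi fun i => ll (ℓ i)
  have hT : ∀ w i, T w i = ∑ j, ℓ i j * w j := fun w i => ll_apply (ℓ i) w
  have hker : LinearMap.ker T = ⊥ := by
    rw [LinearMap.ker_eq_bot']
    intro w hw
    exact hspan w fun i => by rw [← hT, hw]; rfl
  obtain ⟨S, hS⟩ := T.exists_leftInverse_of_injective hker
  refine ⟨fun j i => S (Pi.single i 1) j, fun w j => ?_⟩
  have h1 : w = S (T w) := (LinearMap.congr_fun hS w).symm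
  have h2 : T w = ∑ i, (∑ l, ℓ i l * w l) • (Pi.single i (1 : ℂ) : Fin q → ℂ) := by
    funext i
    rw [hT, Finset.sum_apply, Finset.sum_eq_single i]
    · simp
    · intro j _ hj
      simp [Pi.single_eq_of_ne hj.symm]
    · simp
  calc w j = S (T w) j := congrFun h1 j
    _ = _ := by
      rw [h2, map_sum, Finset.sum_apply]
      refine Finset.sum_congr rfl fun i _ => ?_
      rw [map_smul, Pi.smul_apply, smul_eq_mul, mul_comm]

/-- The theorem for holomorphic maps from the punctured disc to projective space. -/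
theorem curve_picard {n q k : ℕ} {wt : Fin q → ℝ} (hn : 1 ≤ n) {ℓ : Fin q → Fin (n + 1) → ℂ}
    (hI : Ind k ℓ) (hw0 : ∀ i, 0 ≤ wt i) (hw1 : ∀ i, wt i ≤ 1)
    (hq : 2 * (((n + k - 1).choose (n - 1) : ℕ) : ℝ) < ∑ i, wt i)
    {v : ℂ → Fin (n + 1) → ℂ} (hv : ∀ j, AnalyticOnNhd ℂ (fun z => v z j) (PB 1))
    (hnz : ∀ z ∈ PB 1, v z ≠ 0)
    (hM : ∀ z ∈ PB 1, ∀ a : Fin q → ℕ,
      (∀ i, analyticOrderAt (fun w => ∑ j, ℓ i j * v w j) z = a i) →
      ((Finset.univ.filter fun i => a i ≠ 0).card : ℝ) ≤ ∑ i, (1 - wt i) * a i) :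
    (∃ i, ∀ z ∈ PB 1, ∑ j, ℓ i j * v z j = 0) ∨
      ∃ h : ℂ → ℂ, Pun h ∧ Nz h ∧ ∀ j, MRel (fun z => v z j) h := by
  classical
  rw [or_iff_not_imp_left]
  intro hcon
  push Not at hcon
  obtain ⟨A, c, hcA, hnum, hcw⟩ := exists_weights hw0 hw1 hq
  have hDpos : 0 < (n + k - 1).choose (n - 1) := Nat.choose_pos (by omega)
  have hAq : ∑ i, c i ≤ A * q := by
    calc ∑ i, c i ≤ ∑ _i : Fin q, A := Finset.sum_le_sum fun i _ => hcA i
      _ = A * q := by simp [mul_comm]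
  have hq0 : 2 * (n + k - 1).choose (n - 1) < q := by
    by_contra hc
    push Not at hc
    have h1 : A * q ≤ 2 * (n + k - 1).choose (n - 1) * A := by
      rw [mul_comm A q]; exact Nat.mul_le_mul_right A hc
    omega
  obtain ⟨p, rfl⟩ : ∃ p, q = p + 1 := ⟨q - 1, by omega⟩
  -- the degree is positive
  obtain ⟨d, rfl⟩ : ∃ d, k = d + 1 := by
    rcases Nat.eq_zero_or_pos k with h0 | h0
    · exfalso
      subst h0
      have hp1 : 1 ≤ p := by omega
      obtain ⟨P, hP, h1, h2⟩ := hI 0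
      have h3 := h2 ⟨1, by omega⟩ (by
        intro h; have := congrArg Fin.val h; simp at this)
      have h4 : P.totalDegree = 0 := by
        rw [← Nat.le_zero]
        exact hP.totalDegree_le
      rw [totalDegree_eq_zero_iff_eq_C] at h4
      rw [h4, eval_C] at h1 h3
      exact h1 h3
    · exact ⟨k - 1, by omega⟩
  have hnd : n + (d + 1) - 1 = n + d := by omega
  rw [hnd] at hDpos hq0 hnum
  obtain ⟨Q, hQℓ, hQb⟩ := exists_frame (d := d) hn hI (by omega)
  have hfr : Module.finrank ℂ (Rn n (d + 1)) - Module.finrank ℂ (Rn n d) < p + 1 := by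
    rw [(finrank_diff (n := n) (d := d) hn).1]
    omega
  have hspan : ∀ w : Fin (n + 1) → ℂ, (∀ i, ∑ j, ℓ i j * w j = 0) → w = 0 := fun w hw =>
    hI.span hfr w fun i => by rw [ll_apply]; exact hw i
  set F : ℂ → Fin (n + 1) → ℂ := fun z => v z⁻¹ with hF
  have hU : ∀ i, Q.U F i = fun z => ∑ j, ℓ i j * v z⁻¹ j := by
    intro i
    funext w
    unfold Frame.U
    rw [hQℓ, ll_apply]
  have hinv : ∀ z ∈ Ext 1, z⁻¹ ∈ PB 1 := fun z hz =>
    inv_mem_PB one_pos (by rw [inv_one]; exact hz)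
  have hinv' : ∀ w ∈ PB 1, w⁻¹ ∈ Ext 1 := fun w hw => by
    have := inv_mem_Ext hw
    rwa [inv_one] at this
  have hz0 : ∀ z ∈ Ext 1, z ≠ 0 := fun z hz => ext_ne_zero zero_le_one hz
  have hFan : ∀ z ∈ Ext 1, AnA F z := fun z hz j =>
    (hv j z⁻¹ (hinv z hz)).comp_of_eq (analyticAt_inv (hz0 z hz)) rfl
  have hlan : ∀ i, ∀ z ∈ PB 1, AnalyticAt ℂ (fun w => ∑ j, ℓ i j * v w j) z := fun i z hz =>
    Finset.analyticAt_fun_sum _ fun j _ => analyticAt_const.fun_mul (hv j z hz)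
  have hcore := fun j => core_ext Q (r0 := 1) one_pos (A := A) c hcA (by rw [hQb]; exact hnum)
    (F := F) hFan (fun z hz => hnz _ (hinv z hz)) (by
      intro i
      obtain ⟨z, hz, hzne⟩ := hcon i
      refine ⟨z⁻¹, hinv' z hz, ?_⟩
      rw [hU]
      simp only [inv_inv]
      exact hzne) (by
      intro z hz a ha
      have h1 := hM z⁻¹ (hinv z hz) a (fun i => by
        rw [← ha i, hU i]
        have e1 : (fun z => ∑ j, ℓ i j * v z⁻¹ j)
            = (fun w => ∑ j, ℓ i j * v w j) ∘ fun w : ℂ => w⁻¹ := rfl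
        have hd : deriv (fun w : ℂ => w⁻¹) z ≠ 0 := by
          rw [deriv_inv]
          exact neg_ne_zero.mpr (inv_ne_zero (pow_ne_zero _ (hz0 z hz)))
        rw [e1, analyticOrderAt_comp_of_deriv_ne_zero (analyticAt_inv (hz0 z hz)) hd])
      have h2 : (A : ℝ) * (Finset.univ.filter fun i => a i ≠ 0).card
          ≤ ∑ i, ((A - c i : ℕ) : ℝ) * a i := by
        calc (A : ℝ) * (Finset.univ.filter fun i => a i ≠ 0).card
            ≤ A * ∑ i, (1 - wt i) * a i := mul_le_mul_of_nonneg_left h1 (Nat.cast_nonneg A)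
          _ = ∑ i, (A - A * wt i) * a i := by
              rw [Finset.mul_sum]
              exact Finset.sum_congr rfl fun i _ => by ring
          _ ≤ _ := by
              refine Finset.sum_le_sum fun i _ => ?_
              rw [Nat.cast_sub (hcA i)]
              exact mul_le_mul_of_nonneg_right (by linarith [hcw i]) (Nat.cast_nonneg _)
      exact_mod_cast h2) j
  obtain ⟨b, hb⟩ := exists_coeff hspan
  have hh : Pun (fun w => ∑ j, ℓ 0 j * v w j) := on_pun one_pos (hlan 0)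
  refine ⟨fun w => ∑ j, ℓ 0 j * v w j, hh, ?_, ?_⟩
  · intro h0
    obtain ⟨z, hz, hzne⟩ := hcon 0
    exact hzne (eq_zero_on one_pos (hlan 0) h0 z hz)
  · have hrel : ∀ i, MRel (fun w => ∑ j, ℓ i j * v w j) (fun w => ∑ j, ℓ 0 j * v w j) := by
      intro i
      obtain ⟨R, hR, R0, hRe⟩ := hcore i
      refine ⟨fun w => R w⁻¹, hR, ?_⟩
      rw [ev_iff]
      set R1 : ℝ := max R0 1 with hR1
      have hR1pos : 0 < R1 := lt_of_lt_of_le one_pos (le_max_right _ _)
      refine ⟨R1⁻¹, inv_pos.mpr hR1pos, ?_⟩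
      intro w hw
      have hw' : R1 < ‖w⁻¹‖ := by
        have := inv_mem_Ext hw
        rwa [inv_inv] at this
      have h1 := hRe w⁻¹ (lt_of_le_of_lt (le_max_left _ _) hw')
      rw [hU, hU] at h1
      simpa only [inv_inv] using h1
    intro j
    have e : (fun z => v z j) = fun z => ∑ i, b j i * ∑ l, ℓ i l * v z l :=
      funext fun z => hb (v z) j
    rw [e]
    exact MRel.sum _ fun i _ => MRel.const_mul _ (hrel i)

/-- extension from meromorphic ratios -/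
theorem extends_mrel {n : ℕ} {v : ℂ → Fin (n + 1) → ℂ}
    (hv : ∀ j, AnalyticOnNhd ℂ (fun z => v z j) (PB 1)) (hnz : ∀ z ∈ PB 1, v z ≠ 0)
    {h : ℂ → ℂ} (hr : ∀ j, MRel (fun z => v z j) h) : Extends v := by
  have hP : ∀ j, Pun (fun w => v w j) := fun j => on_pun one_pos (hv j)
  refine extends_of v hv hnz fun j k hj hk => ?_
  exact growth_mero (hP j) (hP k) hk ((hr j).gr.trans ((hr k).symm hk).gr)

end Pool.Agent.W601.PH
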