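import Pool.Agent.W601.PH.Curve
import Pool.Agent.W601.SM.Var

/-!
Elimination theory along a curve: if the fibre over one point is finite, then a holomorphic lift to
the fibres is meromorphic.
-/

set_option autoImplicit false

namespace Pool.Agent.W601.PH

open Filter Metric Set Topology Pool.Agent.W601.SM Pool.Agent.W603.BP MvPolynomial Module

/-- products with forms and homogeneous components -/
theorem comp_mul {N d e : ℕ} {F : MvPolynomial (Fin (N + 1)) ℂ} (hF : F.IsHomogeneous d)
    (a : MvPolynomial (Fin (N + 1)) ℂ) :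
    homogeneousComponent e (a * F) = (if d ≤ e then homogeneousComponent (e - d) a else 0) * F := by
  conv_lhs => rw [← sum_homogeneousComponent a, Finset.sum_mul, map_sum]
  have h2 : ∀ i ∈ Finset.range (a.totalDegree + 1),
      homogeneousComponent e (homogeneousComponent i a * F)
        = if i + d = e then homogeneousComponent i a * F else 0 := by
    intro i _
    have hm : homogeneousComponent i a * F ∈ homogeneousSubmodule (Fin (N + 1)) ℂ (i + d) :=
      (mem_homogeneousSubmodule _ _).mpr ((homogeneousComponent_isHomogeneous i a).mul hF)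
    rw [homogeneousComponent_of_mem (m := e) hm]
    by_cases h : i + d = e
    · rw [if_pos h.symm, if_pos h]
    · rw [if_neg (fun h' => h h'.symm), if_neg h]
  rw [Finset.sum_congr rfl h2]
  split_ifs with hde
  · have h3 : ∀ i ∈ Finset.range (a.totalDegree + 1),
        (if i + d = e then homogeneousComponent i a * F else 0)
          = if i = e - d then homogeneousComponent (e - d) a * F else 0 := by
      intro i _
      by_cases h : i + d = e
      · have h' : i = e - d := by omega
        rw [if_pos h, if_pos h', h']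
      · rw [if_neg h, if_neg (by omega)]
    rw [Finset.sum_congr rfl h3, Finset.sum_ite_eq' (Finset.range (a.totalDegree + 1)) (e - d)]
    split_ifs with h4
    · rfl
    · rw [homogeneousComponent_eq_zero _ a (by rw [Finset.mem_range] at h4; omega), zero_mul]
  · rw [zero_mul]
    refine Finset.sum_eq_zero fun i _ => ?_
    rw [if_neg (by omega)]

/-- homogeneity from the values -/
theorem hom_of_scale {N a : ℕ} {f : MvPolynomial (Fin (N + 1)) ℂ}
    (h : ∀ (s : ℂ) (u : Fin (N + 1) → ℂ), eval (s • u) f = s ^ a * eval u f) :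
    f.IsHomogeneous a := by
  have key : homogeneousComponent a f = f := by
    apply MvPolynomial.funext
    intro u
    let p : Polynomial ℂ := ∑ i ∈ Finset.range (f.totalDegree + 1),
      Polynomial.C (eval u (homogeneousComponent i f)) * Polynomial.X ^ i
    have h1 : p = Polynomial.C (eval u f) * Polynomial.X ^ a := by
      apply Polynomial.funext
      intro s
      have h2 := h s u
      conv_lhs at h2 => rw [← sum_homogeneousComponent f, map_sum]
      simp only [p, Polynomial.eval_finsetSum, Polynomial.eval_mul, Polynomial.eval_C,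
        Polynomial.eval_pow, Polynomial.eval_X]
      rw [mul_comm (eval u f), ← h2]
      refine Finset.sum_congr rfl fun i _ => ?_
      rw [eval_smul_hom' (homogeneousComponent_isHomogeneous i f), mul_comm]
    have h3 := congrArg (fun r => Polynomial.coeff r a) h1
    simp only [p, Polynomial.finsetSum_coeff, Polynomial.coeff_C_mul_X_pow, if_true] at h3
    rw [Finset.sum_ite_eq (Finset.range (f.totalDegree + 1)) a] at h3
    split_ifs at h3 with h4
    · exact h3
    · rw [homogeneousComponent_eq_zero _ f (by rw [Finset.mem_range] at h4; omega), map_zero]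
      exact h3
  rw [← key]
  exact homogeneousComponent_isHomogeneous a f

variable {N n : ℕ}

/-- partial evaluation -/
noncomputable def pe (w : Fin (n + 1) → ℂ) (P : BiPoly N n) : MvPolynomial (Fin (N + 1)) ℂ :=
  MvPolynomial.map (eval w) (sumToIter ℂ (Fin (N + 1)) (Fin (n + 1)) P)

theorem eval_pe (u : Fin (N + 1) → ℂ) (w : Fin (n + 1) → ℂ) (P : BiPoly N n) :
    eval u (pe w P) = ev2 u w P := by
  have h : (eval u).comp ((MvPolynomial.map (eval w)).comp
      (sumToIter ℂ (Fin (N + 1)) (Fin (n + 1)))) = eval (Sum.elim u w) := by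
    apply MvPolynomial.ringHom_ext
    · intro r
      simp [sumToIter_C]
    · rintro (i | i)
      · simp [sumToIter_Xl]
      · simp [sumToIter_Xr]
  exact RingHom.congr_fun h P

theorem pe_hom {P : BiPoly N n} (hP : BiHom P) : ∃ a, ∀ w, (pe w P).IsHomogeneous a := by
  obtain ⟨a, b, h⟩ := hP
  refine ⟨a, fun w => hom_of_scale fun s u => ?_⟩
  have h1 := h s 1 u w
  rw [one_smul, one_pow, mul_one] at h1
  rw [eval_pe, eval_pe, h1]

theorem eval_an {g : ℂ → Fin (n + 1) → ℂ} {z : ℂ} (hg : ∀ j, AnalyticAt ℂ (fun z => g z j) z)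
    (Q : MvPolynomial (Fin (n + 1)) ℂ) : AnalyticAt ℂ (fun z => eval (g z) Q) z := by
  have e : (fun z => eval (g z) Q) = fun z => ∑ m ∈ Q.support, coeff m Q * ∏ i, g z i ^ m i :=
    funext fun z => eval_eq' _ _
  rw [e]
  exact Finset.analyticAt_fun_sum _ fun m _ =>
    analyticAt_const.fun_mul (Finset.analyticAt_fun_prod _ fun i _ => (hg i).fun_pow _)

theorem pe_lin_an {g : ℂ → Fin (n + 1) → ℂ} {z : ℂ} (hg : ∀ j, AnalyticAt ℂ (fun z => g z j) z)
    (P : BiPoly N n) (φ : MvPolynomial (Fin (N + 1)) ℂ →ₗ[ℂ] ℂ) :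
    AnalyticAt ℂ (fun z => φ (pe (g z) P)) z := by
  set R := sumToIter ℂ (Fin (N + 1)) (Fin (n + 1)) P with hR
  have e : (fun z => φ (pe (g z) P))
      = fun z => ∑ m ∈ R.support, eval (g z) (coeff m R) * φ (monomial m 1) := by
    funext z
    have h1 : pe (g z) P = ∑ m ∈ R.support, eval (g z) (coeff m R) • monomial m (1 : ℂ) := by
      have h2 : pe (g z) P = MvPolynomial.map (eval (g z)) R := rfl
      rw [h2]
      conv_lhs => rw [R.as_sum, map_sum]
      refine Finset.sum_congr rfl fun m _ => ?_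
      rw [map_monomial, smul_monomial, smul_eq_mul, mul_one]
    rw [h1, map_sum]
    exact Finset.sum_congr rfl fun m _ => by rw [map_smul, smul_eq_mul]
  rw [e]
  exact Finset.analyticAt_fun_sum _ fun m _ => (eval_an hg _).fun_mul analyticAt_const

/-- elimination along a curve -/
theorem elim {ι : Type} [Fintype ι] (Pf : ι → BiPoly N n) (hP : ∀ s, BiHom (Pf s))
    {g : ℂ → Fin (n + 1) → ℂ} (hg : ∀ j, AnalyticOnNhd ℂ (fun z => g z j) (ball 0 1)) {z0 : ℂ}
    (l : Fin (N + 1) → ℂ)
    (h0 : ∀ u, (∀ s, ev2 u (g z0) (Pf s) = 0) → ∑ j, l j * u j = 0 → u = 0) :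
    ∃ δ : ℂ → ℂ, AnalyticOnNhd ℂ δ (ball 0 1) ∧ δ z0 ≠ 0 ∧ ∃ C : ℝ, ∀ z : ℂ, ‖z‖ ≤ 1 / 2 →
      ∀ u : Fin (N + 1) → ℂ, (∀ s, ev2 u (g z) (Pf s) = 0) →
        ‖δ z‖ * ‖u‖ ≤ C * ‖∑ j, l j * u j‖ := by
  classical
  have hdeg := fun s => pe_hom (hP s)
  choose dg hdg using hdeg
  let fam : Option ι → ℂ → MvPolynomial (Fin (N + 1)) ℂ := fun o z =>
    o.elim (lin l) fun s => pe (g z) (Pf s)
  let dd : Option ι → ℕ := fun o => o.elim 1 dg
  have hfam : ∀ o z, (fam o z).IsHomogeneous (dd o) := by
    rintro (_ | s) z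
    · exact lin_hom l
    · exact hdg s (g z)
  have evn : ∀ (u : Fin (N + 1) → ℂ) z, eval u (fam none z) = ∑ j, l j * u j := by
    intro u z
    change eval u (lin l) = _
    rw [eval_lin]
    exact Finset.sum_congr rfl fun j _ => mul_comm _ _
  have evs : ∀ (u : Fin (N + 1) → ℂ) s z, eval u (fam (some s) z) = ev2 u (g z) (Pf s) :=
    fun u s z => eval_pe _ _ _
  -- the Nullstellensatz
  set I0 : Ideal (MvPolynomial (Fin (N + 1)) ℂ) := Ideal.span (Set.range fun o => fam o z0) with hI0
  have hrad : idealOfVars (Fin (N + 1)) ℂ ≤ I0.radical := by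
    rw [idealOfVars, Ideal.span_le]
    rintro _ ⟨j, rfl⟩
    rw [← vanishingIdeal_zeroLocus_eq_radical (K := ℂ)]
    change X j ∈ vanishingIdeal ℂ (zeroLocus ℂ I0)
    rw [mem_vanishingIdeal_iff]
    intro u hu
    rw [mem_zeroLocus_iff] at hu
    have hu0 : u = 0 := by
      apply h0
      · intro s
        rw [← evs u s z0]
        have := hu _ (Ideal.subset_span ⟨some s, rfl⟩)
        rwa [aeval_eq_eval] at this
      · rw [← evn u z0]
        have := hu _ (Ideal.subset_span ⟨none, rfl⟩)
        rwa [aeval_eq_eval] at this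
    rw [hu0]
    simp
  obtain ⟨e, he⟩ := Ideal.exists_pow_le_of_le_radical_of_fg hrad (idealOfVars_fg _ _)
  have hmemI : ∀ f : MvPolynomial (Fin (N + 1)) ℂ, f.IsHomogeneous e → f ∈ I0 := by
    intro f hf
    apply he
    rw [mem_pow_idealOfVars_iff]
    intro x hx
    have h1 := hf (mem_support_iff.mp hx)
    have h2 : Finsupp.degree x = Finsupp.weight 1 x := by
      rw [Finsupp.degree_eq_weight_one]
      rfl
    rw [h2]
    exact h1.ge
  -- a basis of the forms of degree `e`
  set eB := Module.finBasis ℂ (Rn N e) with heB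
  set r := Module.finrank ℂ (Rn N e) with hr
  have hBh : ∀ μ, (eB μ : MvPolynomial (Fin (N + 1)) ℂ).IsHomogeneous e := fun μ =>
    (mem_homogeneousSubmodule _ _).mp (eB μ).2
  have hex : ∀ μ, ∃ a' : Option ι → MvPolynomial (Fin (N + 1)) ℂ,
      ∑ o, a' o * fam o z0 = (eB μ : MvPolynomial (Fin (N + 1)) ℂ) := fun μ =>
    Ideal.mem_span_range_iff_exists_fun.mp (hmemI _ (hBh μ))
  choose a' ha' using hex
  let a : Fin r → Option ι → MvPolynomial (Fin (N + 1)) ℂ := fun μ o =>
    if dd o ≤ e then homogeneousComponent (e - dd o) (a' μ o) else 0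
  have ha : ∀ μ, ∑ o, a μ o * fam o z0 = (eB μ : MvPolynomial (Fin (N + 1)) ℂ) := by
    intro μ
    have h1 := congrArg (homogeneousComponent e) (ha' μ)
    rw [map_sum, homogeneousComponent_of_mem (eB μ).2, if_pos rfl] at h1
    rw [← h1]
    exact Finset.sum_congr rfl fun o _ => (comp_mul (hfam o z0) _).symm
  have hah : ∀ μ z, (∑ o, a μ o * fam o z).IsHomogeneous e := by
    intro μ z
    refine IsHomogeneous.sum _ _ _ fun o _ => ?_
    by_cases hd : dd o ≤ e
    · have h1 : a μ o = homogeneousComponent (e - dd o) (a' μ o) := if_pos hd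
      rw [h1]
      have h2 := (homogeneousComponent_isHomogeneous (e - dd o) (a' μ o)).mul (hfam o z)
      rwa [Nat.sub_add_cancel hd] at h2
    · have h1 : a μ o = 0 := if_neg hd
      rw [h1, zero_mul]
      exact isHomogeneous_zero _ _ _
  let Y : Fin r → ℂ → Rn N e := fun μ z =>
    ⟨∑ o, a μ o * fam o z, (mem_homogeneousSubmodule _ _).mpr (hah μ z)⟩
  let T : ℂ → Matrix (Fin r) (Fin r) ℂ := fun z => Matrix.of fun ν μ => eB.repr (Y μ z) ν
  have hT0 : T z0 = 1 := by
    ext ν μ
    have h1 : Y μ z0 = eB μ := Subtype.ext (ha μ)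
    have h2 : T z0 ν μ = eB.repr (Y μ z0) ν := rfl
    rw [h2, h1, Basis.repr_self, Matrix.one_apply, Finsupp.single_apply]
    by_cases h : μ = ν
    · rw [if_pos h, if_pos h.symm]
    · rw [if_neg h, if_neg (fun h' => h h'.symm)]
  let proj : MvPolynomial (Fin (N + 1)) ℂ →ₗ[ℂ] Rn N e :=
    LinearMap.codRestrict (Rn N e) (homogeneousComponent e) fun x =>
      (mem_homogeneousSubmodule _ _).mpr (homogeneousComponent_isHomogeneous e x)
  have hproj : ∀ μ z, proj (∑ o, a μ o * fam o z) = Y μ z := by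
    intro μ z
    apply Subtype.ext
    change homogeneousComponent e (∑ o, a μ o * fam o z) = _
    rw [homogeneousComponent_of_mem (Y μ z).2, if_pos rfl]
  have hTan : ∀ ν μ, ∀ z ∈ ball (0 : ℂ) 1, AnalyticAt ℂ (fun z => T z ν μ) z := by
    intro ν μ z hz
    have e1 : (fun z => T z ν μ) = fun z => ∑ o, (eB.coord ν) (proj (a μ o * fam o z)) := by
      funext z
      have h2 : T z ν μ = eB.coord ν (Y μ z) := rfl
      rw [h2, ← hproj, map_sum, map_sum]
    rw [e1]
    refine Finset.analyticAt_fun_sum _ fun o _ => ?_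
    rcases o with _ | s
    · exact (analyticAt_const :
        AnalyticAt ℂ (fun _ : ℂ => (eB.coord ν) (proj (a μ none * lin l))) z)
    · exact pe_lin_an (fun j => hg j z hz) (Pf s)
        ((eB.coord ν) ∘ₗ proj ∘ₗ (LinearMap.mulLeft ℂ (a μ (some s))))
  -- the identity
  have hid : ∀ z (u : Fin (N + 1) → ℂ), (∀ s, ev2 u (g z) (Pf s) = 0) → ∀ ν,
      (T z).det * eval u (eB ν : MvPolynomial (Fin (N + 1)) ℂ)
        = (∑ μ, eval u (a μ none) * (T z).adjugate μ ν) * ∑ j, l j * u j := by
    intro z u hu ν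
    set x : Fin r → ℂ := fun ν => eval u (eB ν : MvPolynomial (Fin (N + 1)) ℂ) with hx
    have h1 : ∀ μ, Matrix.vecMul x (T z) μ = eval u (a μ none) * ∑ j, l j * u j := by
      intro μ
      have h2 : (Y μ z : MvPolynomial (Fin (N + 1)) ℂ)
          = ∑ ν, T z ν μ • (eB ν : MvPolynomial (Fin (N + 1)) ℂ) := by
        have h3 := congrArg (Subtype.val) (eB.sum_repr (Y μ z))
        rw [← h3, Submodule.coe_sum]
        exact Finset.sum_congr rfl fun ν _ => Submodule.coe_smul _ _
      have h3 : eval u (Y μ z : MvPolynomial (Fin (N + 1)) ℂ) = ∑ ν, T z ν μ * x ν := by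
        rw [h2, map_sum]
        exact Finset.sum_congr rfl fun ν _ => by rw [smul_eval]
      have h4 : eval u (Y μ z : MvPolynomial (Fin (N + 1)) ℂ)
          = eval u (a μ none) * ∑ j, l j * u j := by
        change eval u (∑ o, a μ o * fam o z) = _
        rw [map_sum, Fintype.sum_option]
        have h5 : ∑ s, eval u (a μ (some s) * fam (some s) z) = 0 :=
          Finset.sum_eq_zero fun s _ => by rw [map_mul, evs, hu s, mul_zero]
        rw [h5, add_zero, map_mul, evn]
      rw [← h4, h3, Matrix.vecMul, dotProduct]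
      exact Finset.sum_congr rfl fun ν _ => mul_comm _ _
    have h2 : Matrix.vecMul (Matrix.vecMul x (T z)) (T z).adjugate = (T z).det • x := by
      rw [Matrix.vecMul_vecMul, Matrix.mul_adjugate, Matrix.vecMul_smul, Matrix.vecMul_one]
    have h3 := congrFun h2 ν
    rw [Pi.smul_apply, smul_eq_mul] at h3
    rw [← h3, Matrix.vecMul, dotProduct, Finset.sum_mul]
    refine Finset.sum_congr rfl fun μ _ => ?_
    rw [h1]
    ring
  -- the pure powers
  let Xe : Fin (N + 1) → Rn N e := fun j => ⟨X j ^ e, (mem_homogeneousSubmodule _ _).mpr (by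
    have := (isHomogeneous_X ℂ j).pow e
    rwa [one_mul] at this)⟩
  let Ψ : Fin (N + 1) → ℂ × (Fin (N + 1) → ℂ) → ℂ := fun j x =>
    ∑ ν, eB.repr (Xe j) ν * ∑ μ, eval x.2 (a μ none) * (T x.1).adjugate μ ν
  have hid2 : ∀ z (u : Fin (N + 1) → ℂ), (∀ s, ev2 u (g z) (Pf s) = 0) → ∀ j,
      (T z).det * u j ^ e = Ψ j (z, u) * ∑ j, l j * u j := by
    intro z u hu j
    have h1 : u j ^ e = ∑ ν, eB.repr (Xe j) ν * eval u (eB ν : MvPolynomial (Fin (N + 1)) ℂ) := by
      have h2 := congrArg (fun y : Rn N e => eval u (y : MvPolynomial (Fin (N + 1)) ℂ))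
        (eB.sum_repr (Xe j))
      have h3 : eval u ((Xe j : Rn N e) : MvPolynomial (Fin (N + 1)) ℂ) = u j ^ e := by
        change eval u (X j ^ e) = _
        rw [map_pow, eval_X]
      rw [← h3, ← h2]
      simp only [Submodule.coe_sum, Submodule.coe_smul, map_sum, smul_eval]
    rw [h1, Finset.mul_sum, Finset.sum_mul]
    refine Finset.sum_congr rfl fun ν _ => ?_
    rw [mul_left_comm, hid z u hu ν]
    ring
  have hK : IsCompact (closedBall (0 : ℂ) (1 / 2) ×ˢ closedBall (0 : Fin (N + 1) → ℂ) 1) :=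
    (isCompact_closedBall _ _).prod (isCompact_closedBall _ _)
  have hTc : ContinuousOn T (closedBall (0 : ℂ) (1 / 2)) := by
    refine continuousOn_pi.mpr fun ν => continuousOn_pi.mpr fun μ => ?_
    intro z hz
    refine (hTan ν μ z ?_).continuousAt.continuousWithinAt
    rw [mem_closedBall, dist_zero_right] at hz
    rw [mem_ball, dist_zero_right]
    linarith
  have hΨc : ∀ j, ContinuousOn (Ψ j)
      (closedBall (0 : ℂ) (1 / 2) ×ˢ closedBall (0 : Fin (N + 1) → ℂ) 1) := by
    intro j
    have hadj : ContinuousOn (fun x : ℂ × (Fin (N + 1) → ℂ) => (T x.1).adjugate)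
        (closedBall (0 : ℂ) (1 / 2) ×ˢ closedBall (0 : Fin (N + 1) → ℂ) 1) :=
      (Continuous.matrix_adjugate continuous_id).comp_continuousOn
        (hTc.comp continuousOn_fst fun x hx => hx.1)
    refine continuousOn_finsetSum _ fun ν _ => continuousOn_const.mul
      (continuousOn_finsetSum _ fun μ _ => ?_)
    refine ContinuousOn.mul ?_ ?_
    · exact ((MvPolynomial.continuous_eval (a μ none)).comp continuous_snd).continuousOn
    · exact (continuous_apply_apply μ ν).comp_continuousOn hadj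
  have hbd : ∀ j, ∃ C : ℝ, ∀ x ∈ closedBall (0 : ℂ) (1 / 2) ×ˢ closedBall (0 : Fin (N + 1) → ℂ) 1,
      ‖Ψ j x‖ ≤ C := fun j => hK.exists_bound_of_continuousOn (hΨc j)
  choose C hC using hbd
  refine ⟨fun z => (T z).det, fun z hz => det_an T fun ν μ => hTan ν μ z hz, ?_,
    ∑ j, |C j|, ?_⟩
  · have h1 : (T z0).det = 1 := by rw [hT0, Matrix.det_one]
    change (T z0).det ≠ 0
    rw [h1]
    exact one_ne_zero
  · intro z hz u hu
    by_cases hu0 : u = 0
    · rw [hu0, norm_zero, mul_zero]
      exact mul_nonneg (Finset.sum_nonneg fun _ _ => abs_nonneg _) (norm_nonneg _)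
    have hun : 0 < ‖u‖ := norm_pos_iff.mpr hu0
    set t : ℂ := ((‖u‖⁻¹ : ℝ) : ℂ) with ht
    have htn : ‖t‖ = ‖u‖⁻¹ := by
      rw [ht, Complex.norm_real, Real.norm_of_nonneg (inv_nonneg.mpr hun.le)]
    have hsol : ∀ s, ev2 (t • u) (g z) (Pf s) = 0 := by
      intro s
      obtain ⟨a1, b1, hab⟩ := hP s
      have h1 := hab t 1 u (g z)
      rw [one_smul, hu s, mul_zero] at h1
      exact h1
    have hnorm : ‖t • u‖ = 1 := by
      rw [norm_smul, htn]
      exact inv_mul_cancel₀ hun.ne'
    obtain ⟨j, hj⟩ : ∃ j, ‖(t • u) j‖ = 1 := by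
      by_contra hcon
      push Not at hcon
      have h1 : ∀ j, ‖(t • u) j‖ < 1 := fun j =>
        lt_of_le_of_ne ((norm_le_pi_norm (t • u) j).trans hnorm.le) (hcon j)
      have h2 : ‖t • u‖ < 1 := (pi_norm_lt_iff one_pos).mpr h1
      linarith
    have h1 := congrArg norm (hid2 z (t • u) hsol j)
    rw [norm_mul, norm_pow, hj, one_pow, mul_one, norm_mul] at h1
    have h2 : ‖Ψ j (z, t • u)‖ ≤ ∑ j, |C j| := by
      refine (hC j _ ⟨?_, ?_⟩).trans ((le_abs_self _).trans
        (Finset.single_le_sum (f := fun j => |C j|) (fun _ _ => abs_nonneg _) (Finset.mem_univ j)))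
      · change z ∈ closedBall (0 : ℂ) (1 / 2)
        rw [mem_closedBall, dist_zero_right]
        exact hz
      · change t • u ∈ closedBall (0 : Fin (N + 1) → ℂ) 1
        rw [mem_closedBall, dist_zero_right]
        exact hnorm.le
    have h3 : ∑ i, l i * (t • u) i = t * ∑ i, l i * u i := by
      rw [Finset.mul_sum]
      refine Finset.sum_congr rfl fun i _ => ?_
      rw [Pi.smul_apply, smul_eq_mul]
      ring
    rw [h3, norm_mul, htn] at h1
    have h4 : ‖(T z).det‖ * ‖u‖ = ‖Ψ j (z, t • u)‖ * ‖∑ i, l i * u i‖ := by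
      rw [h1]
      field_simp
    rw [h4]
    exact mul_le_mul_of_nonneg_right h2 (norm_nonneg _)

end Pool.Agent.W601.PH
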