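import Pool.Agent.W601.PH.Local
import Pool.Agent.W601.PH.Circ
import Pool.Agent.W603.BP.Main

/-!
Curves near infinity: the core statement.
-/

set_option autoImplicit false

namespace Pool.Agent.W601.PH

open Filter Metric Real Set Topology Pool.Agent.H159R3.NV Pool.Agent.W602.NC Pool.Agent.W602.TL
  Pool.Agent.W601.SM Pool.Agent.W603.BP

theorem real_pow_ineq2 {p : ℕ} {X σ C e : ℝ} {b A κ N : ℕ} {x : Fin (p + 1) → ℝ}
    {c : Fin (p + 1) → ℕ} (hX : 0 ≤ X) (hσ : 0 < σ) (hC : 0 ≤ C) (he : 0 ≤ e)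
    (hcA : ∀ i, c i ≤ A) (hκ : κ + 2 * b * A = ∑ i, c i) (hx0 : ∀ i, 0 ≤ x i)
    (hxσ : ∀ i, x i ≤ σ) (h : X * σ ^ (p + 1) ≤ C * e ^ N * σ ^ (b + b) * ∏ i, x i) :
    X ^ A * σ ^ κ ≤ C ^ A * e ^ (N * A) * ∏ i, x i ^ c i := by
  have hR : 0 ≤ ∏ i, x i := Finset.prod_nonneg fun i _ => hx0 i
  have h1 : (X * σ ^ (p + 1)) ^ A ≤ (C * e ^ N * σ ^ (b + b) * ∏ i, x i) ^ A :=
    pow_le_pow_left₀ (by positivity) h A
  have hS : ∑ i, (A - c i) + ∑ i, c i = A * (p + 1) := by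
    rw [← Finset.sum_add_distrib]
    have : ∀ i ∈ (Finset.univ : Finset (Fin (p + 1))), (A - c i) + c i = A := fun i _ =>
      Nat.sub_add_cancel (hcA i)
    rw [Finset.sum_congr rfl this]
    simp [mul_comm]
  have h2 : (∏ i, x i) ^ A ≤ (∏ i, x i ^ c i) * σ ^ (∑ i, (A - c i)) := by
    rw [← Finset.prod_pow, ← Finset.prod_pow_eq_pow_sum, ← Finset.prod_mul_distrib]
    refine Finset.prod_le_prod (fun i _ => pow_nonneg (hx0 i) _) fun i _ => ?_
    have e1 : x i ^ A = x i ^ c i * x i ^ (A - c i) := by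
      rw [← pow_add, Nat.add_sub_cancel' (hcA i)]
    rw [e1]
    exact mul_le_mul_of_nonneg_left (pow_le_pow_left₀ (hx0 i) (hxσ i) _) (pow_nonneg (hx0 i) _)
  set s : ℕ := ∑ i, (A - c i) with hs
  have hpos : 0 < σ ^ (2 * b * A + s) := pow_pos hσ _
  have hR2 : 0 ≤ ∏ i, x i ^ c i := Finset.prod_nonneg fun i _ => pow_nonneg (hx0 i) _
  have h3 : (X ^ A * σ ^ κ) * σ ^ (2 * b * A + s)
      ≤ (C ^ A * e ^ (N * A) * ∏ i, x i ^ c i) * σ ^ (2 * b * A + s) := by
    calc (X ^ A * σ ^ κ) * σ ^ (2 * b * A + s) = (X * σ ^ (p + 1)) ^ A := by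
          rw [mul_assoc, ← pow_add, ← add_assoc, hκ, mul_pow, ← pow_mul, mul_comm (p + 1) A,
            add_comm (∑ i, c i) s, hS]
      _ ≤ (C * e ^ N * σ ^ (b + b) * ∏ i, x i) ^ A := h1
      _ = (C ^ A * e ^ (N * A) * σ ^ (2 * b * A)) * (∏ i, x i) ^ A := by
          rw [mul_pow, mul_pow, mul_pow, ← pow_mul, ← pow_mul, ← two_mul]
      _ ≤ (C ^ A * e ^ (N * A) * σ ^ (2 * b * A)) * ((∏ i, x i ^ c i) * σ ^ s) :=
          mul_le_mul_of_nonneg_left h2 (by positivity)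
      _ = _ := by rw [pow_add]; ring
  exact le_of_mul_le_mul_right h3 hpos

/-- uniform bounds for finitely many units -/
theorem tame_uni {ι : Type} [Fintype ι] {a : ℝ} (H : ι → ℂ → ℂ) (hH : ∀ j, Tame a (H j)) :
    ∃ C : ℝ, 1 ≤ C ∧ ∃ κ : ℕ, (∀ j, ∀ z : ℂ, a + 1 ≤ ‖z‖ → 1 ≤ ‖z‖ →
        ‖H j z‖ ≤ C * ‖z‖ ^ κ ∧ 1 ≤ C * ‖z‖ ^ κ * ‖H j z‖) ∧
      ∀ j, ∀ z w : ℂ, a + 2 ≤ ‖z‖ → ‖w - z‖ ≤ 1 → ‖H j w‖ ≤ C * ‖H j z‖ ∧ ‖H j z‖ ≤ C * ‖H j w‖ := by
  classical
  have h1 := fun j => (hH j).bd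
  have h2 := fun j => (hH j).osc
  choose C1 hC1 κ1 hb using h1
  choose C2 hC2 ho using h2
  have n1 : ∀ j, 0 ≤ C1 j := fun j => by linarith [hC1 j]
  have n2 : ∀ j, 0 ≤ C2 j := fun j => by linarith [hC2 j]
  set C : ℝ := 1 + ∑ i, (C1 i + C2 i) with hC
  have s0 : ∀ j, C1 j + C2 j ≤ ∑ i, (C1 i + C2 i) := fun j =>
    Finset.single_le_sum (f := fun i => C1 i + C2 i) (fun i _ => add_nonneg (n1 i) (n2 i))
      (Finset.mem_univ j)
  have hpos : 0 ≤ ∑ i, (C1 i + C2 i) := Finset.sum_nonneg fun i _ => add_nonneg (n1 i) (n2 i)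
  have s1 : ∀ j, C1 j ≤ C := fun j => by linarith [s0 j, n2 j]
  have s2 : ∀ j, C2 j ≤ C := fun j => by linarith [s0 j, n1 j]
  have s3 : ∀ j, κ1 j ≤ ∑ i, κ1 i := fun j =>
    Finset.single_le_sum (f := κ1) (fun i _ => Nat.zero_le _) (Finset.mem_univ j)
  refine ⟨C, by linarith, ∑ i, κ1 i, ?_, ?_⟩
  · intro j z hz hz1
    obtain ⟨h3, h4⟩ := hb j z hz
    have h5 : C1 j * ‖z‖ ^ κ1 j ≤ C * ‖z‖ ^ (∑ i, κ1 i) :=
      mul_le_mul (s1 j) (pow_le_pow_right₀ hz1 (s3 j)) (by positivity) ((n1 j).trans (s1 j))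
    exact ⟨h3.trans h5, h4.trans (mul_le_mul_of_nonneg_right h5 (norm_nonneg _))⟩
  · intro j z w hz hw
    obtain ⟨h3, h4⟩ := ho j z w hz hw
    exact ⟨h3.trans (mul_le_mul_of_nonneg_right (s2 j) (norm_nonneg _)),
      h4.trans (mul_le_mul_of_nonneg_right (s2 j) (norm_nonneg _))⟩

theorem analyticOrder_prod {ι : Type*} [DecidableEq ι] (s : Finset ι) (f : ι → ℂ → ℂ) {z : ℂ}
    (hf : ∀ i ∈ s, AnalyticAt ℂ (f i) z) :
    analyticOrderAt (fun w => ∏ i ∈ s, f i w) z = ∑ i ∈ s, analyticOrderAt (f i) z := by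
  induction s using Finset.induction_on with
  | empty =>
    simp only [Finset.prod_empty, Finset.sum_empty]
    exact (analyticAt_const.analyticOrderAt_eq_zero).mpr one_ne_zero
  | insert a s ha ih =>
    rw [Finset.sum_insert ha, ← ih fun i hi => hf i (Finset.mem_insert_of_mem hi)]
    have e : (fun w => ∏ i ∈ insert a s, f i w) = f a * fun w => ∏ i ∈ s, f i w := by
      funext w
      rw [Finset.prod_insert ha]
      rfl
    rw [e, analyticOrderAt_mul (hf a (Finset.mem_insert_self a s))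
      (Finset.analyticAt_fun_prod _ fun i hi => hf i (Finset.mem_insert_of_mem hi))]

/-- proportional functions -/
theorem const_ratio {r0 : ℝ} (hr0 : 0 < r0) {f g : ℂ → ℂ} (hf : AnalyticOnNhd ℂ f (Ext r0))
    (hg : AnalyticOnNhd ℂ g (Ext r0)) (hne : ∃ z ∈ Ext r0, f z ≠ 0)
    (h : ∀ z ∈ Ext r0, g z * deriv f z - deriv g z * f z = 0) :
    ∃ c : ℂ, ∀ z ∈ Ext r0, g z = c * f z := by
  obtain ⟨z1, hz1, h1⟩ := hne
  have hev : ∀ᶠ w in 𝓝 z1, f w ≠ 0 ∧ w ∈ Ext r0 :=
    ((hf z1 hz1).continuousAt.eventually_ne h1).and ((Ext_open r0).mem_nhds hz1)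
  obtain ⟨ε, hε, hb⟩ := Metric.eventually_nhds_iff_ball.mp hev
  obtain ⟨c, hc⟩ := isOpen_ball.exists_is_const_of_deriv_eq_zero
    (convex_ball z1 ε).isPreconnected (f := fun w => g w / f w) (fun w hw =>
      ((hg w (hb w hw).2).fun_div (hf w (hb w hw).2) (hb w hw).1).differentiableAt.differentiableWithinAt)
    (fun w hw => by
      have h2 : deriv (fun w => g w / f w) w = (deriv g w * f w - g w * deriv f w) / f w ^ 2 :=
        deriv_fun_div (hg w (hb w hw).2).differentiableAt (hf w (hb w hw).2).differentiableAt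
          (hb w hw).1
      rw [h2]
      have h3 := h w (hb w hw).2
      have h4 : deriv g w * f w - g w * deriv f w = 0 := by linear_combination -h3
      rw [h4, zero_div]
      rfl)
  refine ⟨c, ?_⟩
  have h5 : AnalyticOnNhd ℂ (fun z => g z - c * f z) (Ext r0) := fun z hz =>
    (hg z hz).fun_sub (analyticAt_const.fun_mul (hf z hz))
  have h6 := h5.eqOn_zero_of_preconnected_of_eventuallyEq_zero (Ext_preconn hr0) hz1 (by
    filter_upwards [isOpen_ball.mem_nhds (mem_ball_self hε)] with w hw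
    have h7 := hc w hw
    have h8 := (hb w hw).1
    have h9 : g w = c * f w := by
      rw [← h7]
      field_simp
    rw [h9, sub_self]
    rfl)
  intro z hz
  exact sub_eq_zero.mp (h6 hz)

section

variable {m p : ℕ} {L X Y : Type*} [AddCommGroup L] [Module ℂ L] [AddCommGroup X]
    [Module ℂ X] [AddCommGroup Y] [Module ℂ Y] (Q : Frame m (p + 1) L X Y)

/-- The core statement: a curve near infinity, which is sufficiently ramified, is meromorphic at
infinity. -/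
theorem core_ext {r0 : ℝ} (hr0 : 0 < r0) {A : ℕ} (c : Fin (p + 1) → ℕ) (hcA : ∀ i, c i ≤ A)
    (hn : 2 * Q.b * A < ∑ i, c i) {F : ℂ → Fin m → ℂ} (hF : ∀ z ∈ Ext r0, AnA F z)
    (hnz : ∀ z ∈ Ext r0, F z ≠ 0) (hne : ∀ i, ∃ z ∈ Ext r0, Q.U F i z ≠ 0)
    (hM : ∀ z ∈ Ext r0, ∀ a : Fin (p + 1) → ℕ, (∀ i, analyticOrderAt (Q.U F i) z = a i) →
      A * (Finset.univ.filter fun i => a i ≠ 0).card ≤ ∑ i, (A - c i) * a i) (j : Fin (p + 1)) :
    ∃ R : ℂ → ℂ, MeromorphicAt (fun w => R w⁻¹) 0 ∧ ∃ R0 : ℝ, ∀ z, R0 < ‖z‖ →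
      Q.U F j z = R z * Q.U F 0 z := by
  classical
  have hUan : ∀ i, AnalyticOnNhd ℂ (Q.U F i) (Ext r0) := fun i z hz => (hF z hz).lin (Q.ℓ i)
  by_cases hcon : ∀ i, ∀ z ∈ Ext r0,
      Q.U F i z * deriv (Q.U F 0) z - deriv (Q.U F i) z * Q.U F 0 z = 0
  · obtain ⟨cc, hcc⟩ := const_ratio hr0 (hUan 0) (hUan j) (hne 0) (hcon j)
    exact ⟨fun _ => cc, MeromorphicAt.const cc 0, r0, fun z hz => hcc z hz⟩
  push Not at hcon
  obtain ⟨j1, hj1⟩ := hcon
  -- a good point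
  let W : ℂ → ℂ := fun z => Q.U F j1 z * deriv (Q.U F 0) z - deriv (Q.U F j1) z * Q.U F 0 z
  have hWan : AnalyticOnNhd ℂ W (Ext r0) := fun z hz =>
    ((hUan j1 z hz).fun_mul (hUan 0 z hz).deriv).fun_sub
      ((hUan j1 z hz).deriv.fun_mul (hUan 0 z hz))
  let ff : Option (Fin (p + 1)) → ℂ → ℂ := fun o => o.elim W fun i => Q.U F i
  obtain ⟨_, z1, hz1, hz1ne⟩ := prod_ne hr0 Finset.univ ff (by
      rintro (_ | i) _
      · exact hWan
      · exact hUan i) (by
      rintro (_ | i) _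
      · exact hj1
      · exact hne i)
  have hz1W : W z1 ≠ 0 := Finset.prod_ne_zero_iff.mp hz1ne none (Finset.mem_univ _)
  have hz1U : ∀ i, Q.U F i z1 ≠ 0 := fun i =>
    Finset.prod_ne_zero_iff.mp hz1ne (some i) (Finset.mem_univ _)
  have hind : ∀ t : ℂ, dF F z1 ≠ t • F z1 := by
    intro t ht
    apply hz1W
    have h1 : ∀ i, deriv (Q.U F i) z1 = t * Q.U F i z1 := by
      intro i
      have h2 : deriv (Q.U F i) z1 = Q.ℓ i (dF F z1) := (hF z1 hz1).lin_deriv (Q.ℓ i)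
      rw [h2, ht, map_smul, smul_eq_mul]
      rfl
    change Q.U F j1 z1 * deriv (Q.U F 0) z1 - deriv (Q.U F j1) z1 * Q.U F 0 z1 = 0
    rw [h1, h1]
    ring
  obtain ⟨AA, hAA, hGne⟩ := Q.exists_A (hnz z1 hz1) hind fun i => Or.inl (hz1U i)
  set P : ℂ → ℂ := Q.P AA F with hP
  have hPan : AnalyticOnNhd ℂ P (Ext r0) := fun z hz => P_an Q AA (hF z hz) (hnz z hz)
  -- the annulus
  let gg : Option (Fin (p + 1)) → ℂ → ℂ := fun o => o.elim P fun i => Q.U F i
  have hgg1 : ∀ o ∈ (Finset.univ : Finset (Option (Fin (p + 1)))),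
      AnalyticOnNhd ℂ (gg o) (Ext r0) := by
    rintro (_ | i) _
    · exact hPan
    · exact hUan i
  have hgg2 : ∀ o ∈ (Finset.univ : Finset (Option (Fin (p + 1)))), ∃ z ∈ Ext r0, gg o z ≠ 0 := by
    rintro (_ | i) _
    · exact ⟨z1, hz1, hGne⟩
    · exact hne i
  obtain ⟨hG1, hG2⟩ := prod_ne hr0 Finset.univ gg hgg1 hgg2
  set r' : ℝ := max r0 1 with hr'
  have hr'0 : 0 < r' := lt_of_lt_of_le hr0 (le_max_left _ _)
  have hG3 := ne_on_smaller hr0 (le_max_left r0 1) hG1 hG2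
  obtain ⟨r1, r2, h01, h12, hfree⟩ := annulus hr'0 (hG1.mono (Ext_mono (le_max_left r0 1))) hG3
  obtain ⟨a, h1a, ha2⟩ := exists_between h12
  have hr1 : 1 < r1 := lt_of_le_of_lt (le_max_right _ _) h01
  have hr01 : r0 < r1 := lt_of_le_of_lt (le_max_left _ _) h01
  have ha1 : 1 ≤ a := by linarith
  have ha0 : 0 < a := by linarith
  have hra : r0 ≤ a := by linarith
  have hEa : Ext a ⊆ Ext r0 := Ext_mono hra
  have hbv := fun o => birkhoff (F := gg o) (by linarith : (0 : ℝ) ≤ r1) h1a ha2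
    ((hgg1 o (Finset.mem_univ _)).differentiableOn.mono (Ext_mono hr01.le)) (fun z h1 h2 =>
      Finset.prod_ne_zero_iff.mp (hfree z h1 h2) o (Finset.mem_univ o))
  choose k q G hq hG hG0 hvG using hbv
  let H : Option (Fin (p + 1)) → ℂ → ℂ := fun o z => z ^ k o * Complex.exp (q o z⁻¹)
  have hH : ∀ o, Tame a (H o) := fun o => tame_of ha1 (k o) (hq o)
  have hvH : ∀ o, ∀ z ∈ Ext a, gg o z = H o z * G o z := fun o z hz => hvG o z hz
  obtain ⟨C0, hC0, κ0, hbd, hosc⟩ := tame_uni H hH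
  obtain ⟨C1, hC1, hpt⟩ := P_point_at Q hAA
  -- the entire functions
  let g : Fin (p + 1) → ℂ → ℂ := fun i => G (some i)
  have hg : ∀ i, Differentiable ℂ (g i) := fun i => hG _
  have hg0 : ∀ i, g i 0 ≠ 0 := fun i => hG0 _ 0 (by simpa using ha0.le)
  have hUg : ∀ i, ∀ z ∈ Ext a, Q.U F i z = H (some i) z * g i z := fun i z hz => hvH (some i) z hz
  have hPg : ∀ z ∈ Ext a, P z = H none z * G none z := fun z hz => hvH none z hz
  obtain ⟨κ, hκ0, hκ⟩ : ∃ κ, 0 < κ ∧ κ + 2 * Q.b * A = ∑ i, c i :=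
    ⟨∑ i, c i - 2 * Q.b * A, by omega, by omega⟩
  set B : ℝ := C0 * C0 * Real.exp 1 with hB
  have hB1 : 1 ≤ B := one_le_mul_of_one_le_of_one_le
    (one_le_mul_of_one_le_of_one_le hC0 hC0) (Real.one_le_exp (by norm_num))
  set T : ℕ := A + κ + ∑ i, c i with hT
  have hmain := circle2 (p := p) (d := Q.N * A) (κ := κ) (K := κ0 * T) c hκ0
    (C := C0 ^ T * C1 ^ A * B ^ (Q.N * A)) (a := a + 2)
    (one_le_mul_of_one_le_of_one_le (one_le_mul_of_one_le_of_one_le (one_le_pow₀ hC0)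
      (one_le_pow₀ hC1)) (one_le_pow₀ hB1)) (by linarith) hg hg0
    (P := fun z => G none z ^ A) ((hG none).pow A)
    (pow_ne_zero _ (hG0 none 0 (by simpa using ha0.le))) ?_ ?_
  rotate_left
  · -- orders
    intro z
    by_cases hz : z ∈ Ext a
    · have hzr := hEa hz
      have hev := (Ext_open a).mem_nhds hz
      have hfin : ∀ i, ∃ n : ℕ, analyticOrderAt (Q.U F i) z = n := by
        intro i
        have h1 : analyticOrderAt (Q.U F i) z ≠ ⊤ := by
          intro h0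
          obtain ⟨z2, hz2, h2⟩ := hne i
          exact h2 ((hUan i).eqOn_zero_of_preconnected_of_eventuallyEq_zero (Ext_preconn hr0) hzr
            (analyticOrderAt_eq_top.mp h0) hz2)
        obtain ⟨n, hn⟩ := ENat.ne_top_iff_exists.mp h1
        exact ⟨n, hn.symm⟩
      choose ai hai using hfin
      have hunit : ∀ o, analyticOrderAt (gg o) z = analyticOrderAt (G o) z := by
        intro o
        have e1 : gg o =ᶠ[𝓝 z] H o * G o := by
          filter_upwards [hev] with w hw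
          exact hvH o w hw
        rw [analyticOrderAt_congr e1, analyticOrderAt_mul ((hH o).an z hz) ((hG o).analyticAt z),
          ((hH o).an z hz).analyticOrderAt_eq_zero.mpr ((hH o).ne z hz), zero_add]
      have hgi : ∀ i, analyticOrderAt (g i) z = ai i := fun i => by
        rw [← hai i]
        exact (hunit (some i)).symm
      have h1 : analyticOrderAt (fun z => ∏ i, g i z ^ c i) z = ((∑ i, c i * ai i : ℕ) : ℕ∞) := by
        rw [analyticOrder_prod Finset.univ (fun i z => g i z ^ c i)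
          (fun i _ => ((hg i).analyticAt z).fun_pow (c i))]
        push_cast
        refine Finset.sum_congr rfl fun i _ => ?_
        have e : (fun z => g i z ^ c i) = g i ^ c i := rfl
        rw [e, analyticOrderAt_pow ((hg i).analyticAt z), nsmul_eq_mul, hgi i]
      have h2 : ((∑ i, (ai i - 1) : ℕ) : ℕ∞) ≤ analyticOrderAt (G none) z := by
        rw [← hunit none]
        refine P_order_at Q hAA (hF z hzr) (hnz z hzr) (fun i => ai i - 1) ?_ ?_
        · intro i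
          have : ((ai i - 1 : ℕ) : ℕ∞) ≤ (ai i : ℕ∞) := by exact_mod_cast Nat.sub_le _ _
          exact this.trans (hai i).ge
        · intro i
          have h3 := ord_deriv (hUan i z hzr)
          have e2 : deriv (Q.U F i) =ᶠ[𝓝 z] fun z => Q.ℓ i (dF F z) := by
            filter_upwards [(hF z hzr).ev] with w hw
            exact hw.lin_deriv (Q.ℓ i)
          rw [analyticOrderAt_congr e2] at h3
          rw [ENat.natCast_sub, Nat.cast_one, tsub_le_iff_right]
          exact (hai i).ge.trans h3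
      have h3 : ∑ i, c i * ai i ≤ A * ∑ i, (ai i - 1) := by
        have h4 := hM z hzr ai hai
        have h5 : ∑ i, ai i = ∑ i, (ai i - 1) + (Finset.univ.filter fun i => ai i ≠ 0).card := by
          rw [Finset.card_filter, ← Finset.sum_add_distrib]
          refine Finset.sum_congr rfl fun i _ => ?_
          split_ifs with h
          · omega
          · omega
        have h6 : ∑ i, (A - c i) * ai i + ∑ i, c i * ai i = A * ∑ i, ai i := by
          rw [← Finset.sum_add_distrib, Finset.mul_sum]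
          refine Finset.sum_congr rfl fun i _ => ?_
          rw [← add_mul, Nat.sub_add_cancel (hcA i)]
        rw [h5, mul_add] at h6
        omega
      have e3 : (fun z => G none z ^ A) = G none ^ A := rfl
      rw [h1, e3, analyticOrderAt_pow ((hG none).analyticAt z)]
      calc ((∑ i, c i * ai i : ℕ) : ℕ∞) ≤ ((A * ∑ i, (ai i - 1) : ℕ) : ℕ∞) := by
            exact_mod_cast h3
        _ = A • ((∑ i, (ai i - 1) : ℕ) : ℕ∞) := by rw [nsmul_eq_mul]; push_cast; rfl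
        _ ≤ _ := nsmul_le_nsmul_right h2 _
    · have hza : ‖z‖ ≤ a := not_lt.mp hz
      have h1 : analyticOrderAt (fun z => ∏ i, g i z ^ c i) z = 0 := by
        apply AnalyticAt.analyticOrderAt_eq_zero _ |>.mpr
        · exact Finset.prod_ne_zero_iff.mpr fun i _ => pow_ne_zero _ (hG0 _ z hza)
        · exact Finset.analyticAt_fun_prod _ fun i _ => ((hg i).analyticAt z).fun_pow (c i)
      rw [h1]
      exact bot_le
  · -- the pointwise bound
    intro z ε haz hε hε1 hgood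
    have hz1' : 1 ≤ ‖z‖ := by linarith
    have hball : ∀ y ∈ closedBall z ε, a + 1 ≤ ‖y‖ ∧ ‖y - z‖ ≤ 1 := by
      intro y hy
      rw [mem_closedBall, dist_eq_norm] at hy
      refine ⟨?_, hy.trans hε1⟩
      have : ‖z‖ ≤ ‖y‖ + 1 := by
        calc ‖z‖ = ‖y - (y - z)‖ := by congr 1; ring
          _ ≤ ‖y‖ + ‖y - z‖ := norm_sub_le _ _
          _ ≤ _ := by linarith
      linarith
    have hballE : ∀ y ∈ closedBall z ε, y ∈ Ext a := by
      intro y hy
      have := (hball y hy).1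
      change a < ‖y‖
      linarith
    have hzm : z ∈ closedBall z ε := mem_closedBall_self hε.le
    have hzE : z ∈ Ext a := hballE z hzm
    have hUne : ∀ i, ∀ w ∈ closedBall z ε, Q.U F i w ≠ 0 := fun i w hw => by
      rw [hUg i w (hballE w hw)]
      exact mul_ne_zero ((hH _).ne w (hballE w hw)) (hgood.1 i w hw)
    have hUb : ∀ i j, ∀ w ∈ closedBall z ε,
        ‖Q.U F j w / Q.U F i w‖ ≤ B * ‖Q.U F j z / Q.U F i z‖ := by
      intro i j w hw
      obtain ⟨h1, h2⟩ := hball w hw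
      have o1 := (hosc (some j) z w haz h2).1
      have o2 := (hosc (some i) z w haz h2).2
      have hb' := hgood.2 i j w hw
      have n1 : 0 < ‖H (some i) w‖ := norm_pos_iff.mpr ((hH _).ne w (hballE w hw))
      have n2 : 0 < ‖H (some i) z‖ := norm_pos_iff.mpr ((hH _).ne z hzE)
      have q1 : ‖Q.U F j w / Q.U F i w‖ = ‖H (some j) w / H (some i) w‖ * ‖g j w / g i w‖ := by
        rw [hUg i w (hballE w hw), hUg j w (hballE w hw), ← norm_mul]
        exact congrArg norm (mul_div_mul_comm _ _ _ _)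
      have q2 : ‖Q.U F j z / Q.U F i z‖ = ‖H (some j) z / H (some i) z‖ * ‖g j z / g i z‖ := by
        rw [hUg i z hzE, hUg j z hzE, ← norm_mul]
        exact congrArg norm (mul_div_mul_comm _ _ _ _)
      rw [q1, q2]
      have h3 : ‖H (some j) w / H (some i) w‖ ≤ C0 * C0 * ‖H (some j) z / H (some i) z‖ := by
        rw [norm_div, norm_div, ← mul_div_assoc, div_le_div_iff₀ n1 n2]
        calc ‖H (some j) w‖ * ‖H (some i) z‖ ≤ (C0 * ‖H (some j) z‖) * (C0 * ‖H (some i) w‖) :=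
              mul_le_mul o1 o2 (norm_nonneg _) (by positivity)
          _ = _ := by ring
      calc ‖H (some j) w / H (some i) w‖ * ‖g j w / g i w‖
          ≤ (C0 * C0 * ‖H (some j) z / H (some i) z‖) * (Real.exp 1 * ‖g j z / g i z‖) :=
            mul_le_mul h3 hb' (norm_nonneg _) (by positivity)
        _ = B * (‖H (some j) z / H (some i) z‖ * ‖g j z / g i z‖) := by rw [hB]; ring
    have hp := hpt F z ε B hε hε1 hB1 (fun w hw => hF w (hEa (hballE w hw)))
      (hnz z (hEa hzE)) hUne hUb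
    have hsp : 0 < sup (Q.U F) z := sup_pos (hUne 0 z hzm)
    have hp2 := real_pow_ineq2 (norm_nonneg (P z)) hsp (by linarith : (0 : ℝ) ≤ C1)
      (by positivity : (0 : ℝ) ≤ B / ε) hcA hκ (fun i => norm_nonneg (Q.U F i z))
      (fun i => le_sup (Q.U F) z i) hp
    set Z : ℝ := C0 * ‖z‖ ^ κ0 with hZ
    have hZ0 : 0 ≤ Z := by positivity
    have hlow : ∀ o, ‖G o z‖ ≤ Z * ‖gg o z‖ := by
      intro o
      have h1 := (hbd o z (by linarith) hz1').2
      rw [hvH o z hzE, norm_mul]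
      calc ‖G o z‖ = 1 * ‖G o z‖ := (one_mul _).symm
        _ ≤ (C0 * ‖z‖ ^ κ0 * ‖H o z‖) * ‖G o z‖ := mul_le_mul_of_nonneg_right h1 (norm_nonneg _)
        _ = _ := by rw [hZ]; ring
    have hup : ∀ i, ‖Q.U F i z‖ ≤ Z * ‖g i z‖ := by
      intro i
      have h1 := (hbd (some i) z (by linarith) hz1').1
      rw [hUg i z hzE, norm_mul]
      exact mul_le_mul_of_nonneg_right h1 (norm_nonneg _)
    have hsup : sup g z ≤ Z * sup (Q.U F) z := by
      obtain ⟨i, hi⟩ := sup_attained g z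
      rw [hi]
      exact (hlow (some i)).trans (mul_le_mul_of_nonneg_left (le_sup (Q.U F) z i) hZ0)
    have hsg : 0 ≤ sup g z := (norm_nonneg (g 0 z)).trans (le_sup g z 0)
    rw [norm_pow]
    have h7 : ∏ i, ‖Q.U F i z‖ ^ c i ≤ Z ^ (∑ i, c i) * ∏ i, ‖g i z‖ ^ c i := by
      rw [← Finset.prod_pow_eq_pow_sum, ← Finset.prod_mul_distrib]
      refine Finset.prod_le_prod (fun i _ => by positivity) fun i _ => ?_
      rw [← mul_pow]
      exact pow_le_pow_left₀ (norm_nonneg _) (hup i) _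
    have hXpos : 0 ≤ C1 ^ A * (B / ε) ^ (Q.N * A) := by positivity
    calc ‖G none z‖ ^ A * sup g z ^ κ
        ≤ (Z * ‖P z‖) ^ A * (Z * sup (Q.U F) z) ^ κ :=
          mul_le_mul (pow_le_pow_left₀ (norm_nonneg _) (hlow none) _)
            (pow_le_pow_left₀ hsg hsup _) (by positivity) (by positivity)
      _ = Z ^ (A + κ) * (‖P z‖ ^ A * sup (Q.U F) z ^ κ) := by
          rw [mul_pow, mul_pow, pow_add]; ring
      _ ≤ Z ^ (A + κ) * (C1 ^ A * (B / ε) ^ (Q.N * A) * ∏ i, ‖Q.U F i z‖ ^ c i) :=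
          mul_le_mul_of_nonneg_left hp2 (by positivity)
      _ ≤ Z ^ (A + κ) * (C1 ^ A * (B / ε) ^ (Q.N * A) *
            (Z ^ (∑ i, c i) * ∏ i, ‖g i z‖ ^ c i)) :=
          mul_le_mul_of_nonneg_left (mul_le_mul_of_nonneg_left h7 hXpos) (by positivity)
      _ = C0 ^ T * C1 ^ A * B ^ (Q.N * A) * ‖z‖ ^ (κ0 * T) * (1 / ε) ^ (Q.N * A)
            * ∏ i, ‖g i z‖ ^ c i := by
          have e1 : (B / ε) ^ (Q.N * A) = B ^ (Q.N * A) * (1 / ε) ^ (Q.N * A) := by
            rw [← mul_pow]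
            congr 1
            ring
          have e2 : Z ^ (A + κ) * Z ^ (∑ i, c i) = C0 ^ T * ‖z‖ ^ (κ0 * T) := by
            rw [← pow_add, hZ, mul_pow, ← pow_mul]
          rw [e1]
          calc _ = (Z ^ (A + κ) * Z ^ (∑ i, c i)) * (C1 ^ A * (B ^ (Q.N * A)
                * (1 / ε) ^ (Q.N * A)) * ∏ i, ‖g i z‖ ^ c i) := by ring
            _ = _ := by rw [e2]; ring
  · obtain ⟨Λ, K1, K2, hBase, hK2, hgr⟩ := log_growth2 hg hg0 (by linarith : (1 : ℝ) ≤ a + 2) hmain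
    obtain ⟨R, hR, R0, hRe⟩ := quot_rational hBase hK2 (by linarith : (1 : ℝ) ≤ a + 2) hgr j
    refine ⟨fun z => (H (some j) z / H (some 0) z) * R z, ?_, max R0 a, ?_⟩
    · apply MeromorphicAt.fun_mul _ hR
      exact (unit_mero ha0 (k _) (hq _)).fun_div (unit_mero ha0 (k _) (hq _))
    · intro z hz
      have hz1 : R0 < ‖z‖ := lt_of_le_of_lt (le_max_left _ _) hz
      have hzE : z ∈ Ext a := lt_of_le_of_lt (le_max_right _ _) hz
      rw [hUg j z hzE, hUg 0 z hzE, hRe z hz1]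
      have := (hH (some 0)).ne z hzE
      field_simp

end

end Pool.Agent.W601.PH
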