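import Pool.Agent.W601.SM.Core

/-!
Local versions of the statements about the auxiliary function of a curve.
-/

set_option autoImplicit false

namespace Pool.Agent.W601.PH

open Matrix Module Filter Metric Real Set Topology Pool.Agent.H159R3.NV Pool.Agent.W602.NC
  Pool.Agent.W602.TL Pool.Agent.W601.SM

/-- the coordinates are analytic at a point -/
def AnA {m : ℕ} (F : ℂ → Fin m → ℂ) (z : ℂ) : Prop := ∀ j, AnalyticAt ℂ (fun w => F w j) z

theorem AnA.dF {m : ℕ} {F : ℂ → Fin m → ℂ} {z : ℂ} (hF : AnA F z) : AnA (SM.dF F) z :=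
  fun j => (hF j).deriv

theorem AnA.lin {m : ℕ} {F : ℂ → Fin m → ℂ} {z : ℂ} (hF : AnA F z) (φ : (Fin m → ℂ) →ₗ[ℂ] ℂ) :
    AnalyticAt ℂ (fun w => φ (F w)) z := by
  have e : (fun w => φ (F w)) = fun w => ∑ i, F w i * φ fun j => if i = j then 1 else 0 :=
    funext fun w => by rw [LinearMap.pi_apply_eq_sum_univ φ (F w)]; rfl
  rw [e]
  exact Finset.analyticAt_fun_sum _ fun i _ => (hF i).fun_mul analyticAt_const

theorem AnA.lin_deriv {m : ℕ} {F : ℂ → Fin m → ℂ} {z : ℂ} (hF : AnA F z)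
    (φ : (Fin m → ℂ) →ₗ[ℂ] ℂ) : deriv (fun w => φ (F w)) z = φ (SM.dF F z) := by
  have e : (fun w => φ (F w)) = fun w => ∑ i, F w i • φ fun j => if i = j then 1 else 0 :=
    funext fun w => LinearMap.pi_apply_eq_sum_univ φ (F w)
  rw [e, LinearMap.pi_apply_eq_sum_univ φ (SM.dF F z),
    deriv_fun_sum fun i _ => ((hF i).differentiableAt.smul_const _)]
  exact Finset.sum_congr rfl fun i _ => deriv_smul_const (hF i).differentiableAt _

theorem AnA.ev {m : ℕ} {F : ℂ → Fin m → ℂ} {z : ℂ} (hF : AnA F z) : ∀ᶠ w in 𝓝 z, AnA F w := by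
  unfold AnA
  rw [Filter.eventually_all]
  exact fun j => (hF j).eventually_analyticAt

theorem AnA.cont {m : ℕ} {F : ℂ → Fin m → ℂ} {z : ℂ} (hF : AnA F z) : ContinuousAt F z :=
  continuousAt_pi.mpr fun j => (hF j).continuousAt

theorem det_an {ρ : Type*} [Fintype ρ] [DecidableEq ρ] (M : ℂ → Matrix ρ ρ ℂ) {z : ℂ}
    (hM : ∀ c r, AnalyticAt ℂ (fun z => M z c r) z) : AnalyticAt ℂ (fun z => (M z).det) z := by
  have e : (fun z => (M z).det) = fun z => ∑ σ : Equiv.Perm ρ,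
      ((Equiv.Perm.sign σ : ℤ) : ℂ) * ∏ i, M z (σ i) i := by
    funext z
    rw [det_apply']
  rw [e]
  exact Finset.analyticAt_fun_sum _ fun σ _ =>
    analyticAt_const.fun_mul (Finset.analyticAt_fun_prod _ fun i _ => hM (σ i) i)

section

variable {m q : ℕ} {L X Y : Type*} [AddCommGroup L] [Module ℂ L] [AddCommGroup X]
    [Module ℂ X] [AddCommGroup Y] [Module ℂ Y] (Q : Frame m q L X Y)

theorem ψ_an (b : Fin Q.b → X) {F : ℂ → Fin m → ℂ} {z : ℂ} (hF : AnA F z) :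
    AnalyticAt ℂ (fun z => Q.ψ b (F z)) z := by
  have h1 : (fun z => Q.ψ b (F z)) = fun z => (Q.eX.toMatrix (Q.S.rowsψ Q.eL b (F z))).det := by
    funext u
    unfold Frame.ψ Sys.ψ
    rw [Basis.det_apply]
  rw [h1]
  refine det_an _ fun i j => ?_
  rcases j with s | t
  · exact hF.lin ((Q.eX.coord i) ∘ₗ (Q.S.mL.flip (Q.eL s)))
  · exact (analyticAt_const : AnalyticAt ℂ (fun _ : ℂ => Q.eX.repr (b t) i) z)

theorem MΦ_an (A : Fin Q.c → Y) (b : Fin Q.b → X) {F H : ℂ → Fin m → ℂ} {z : ℂ} (hF : AnA F z)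
    (hH : AnA H z) (c r) : AnalyticAt ℂ (fun z => Q.MΦ A b (F z) (H z) c r) z := by
  rcases r with a | s | t
  · exact (analyticAt_const : AnalyticAt ℂ (fun _ : ℂ => Q.eY.repr (A a) c) z)
  · exact hF.lin ((Q.eY.coord c) ∘ₗ (Q.S.mX.flip (Q.eX s)))
  · exact hH.lin ((Q.eY.coord c) ∘ₗ (Q.S.mX.flip (b t)))

theorem Φ_an (A : Fin Q.c → Y) (b : Fin Q.b → X) {F H : ℂ → Fin m → ℂ} {z : ℂ} (hF : AnA F z)
    (hH : AnA H z) : AnalyticAt ℂ (fun z => Q.Φ A b (F z) (H z)) z := by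
  have e : (fun z => Q.Φ A b (F z) (H z)) = fun z => (Q.MΦ A b (F z) (H z)).det :=
    funext fun z => Q.Φ_eq A b _ _
  rw [e]
  exact det_an _ fun c r => MΦ_an Q A b hF hH c r

theorem P_an (A : Fin Q.c → Y) {F : ℂ → Fin m → ℂ} {z : ℂ} (hF : AnA F z) (hnz : F z ≠ 0) :
    AnalyticAt ℂ (Q.P A F) z := by
  obtain ⟨b, hb⟩ := Q.exists_b hnz
  have h1 : ∀ᶠ w in 𝓝 z, Q.ψ b (F w) ≠ 0 := (ψ_an Q b hF).continuousAt.eventually_ne hb
  have h0 : ∀ᶠ w in 𝓝 z, F w ≠ 0 := hF.cont.eventually_ne hnz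
  have h2 : Q.P A F =ᶠ[𝓝 z] fun z => Q.Φ A b (F z) (dF F z) / Q.ψ b (F z) := by
    filter_upwards [h1, h0] with w hw hw0
    exact Q.G_eq A hw0 _ hw
  exact ((Φ_an Q A b hF hF.dF).fun_div (ψ_an Q b hF) hb).congr h2.symm

theorem P_order_at {A : Fin Q.c → Y} (hA : ∀ a, A a ∈ Q.I) {F : ℂ → Fin m → ℂ} {z : ℂ}
    (hF : AnA F z) (hnz : F z ≠ 0) (o : Fin q → ℕ)
    (h1 : ∀ i, (o i : ℕ∞) ≤ analyticOrderAt (fun z => Q.ℓ i (F z)) z)
    (h2 : ∀ i, (o i : ℕ∞) ≤ analyticOrderAt (fun z => Q.ℓ i (dF F z)) z) :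
    ((∑ i, o i : ℕ) : ℕ∞) ≤ analyticOrderAt (Q.P A F) z := by
  classical
  obtain ⟨b, hb⟩ := Q.exists_b hnz
  have h0 : ∀ᶠ w in 𝓝 z, F w ≠ 0 := hF.cont.eventually_ne hnz
  have e1 : (Q.P A F * (fun z => Q.ψ b (F z)))
      =ᶠ[𝓝 z] fun z => (Q.MΦ A b (F z) (dF F z)).det := by
    filter_upwards [h0] with w hw
    rw [Pi.mul_apply, ← Q.Φ_eq, ← Q.G_mul A hw _ b]
    rfl
  have e2 : analyticOrderAt (fun z => Q.ψ b (F z)) z = 0 :=
    (ψ_an Q b hF).analyticOrderAt_eq_zero.mpr hb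
  have e3 : analyticOrderAt (Q.P A F) z
      = analyticOrderAt (fun z => (Q.MΦ A b (F z) (dF F z)).det) z := by
    rw [← analyticOrderAt_congr e1, analyticOrderAt_mul (P_an Q A hF hnz) (ψ_an Q b hF), e2,
      add_zero]
  rw [e3]
  set o' : (Fin Q.c ⊕ ((Fin Q.a ⊕ Fin Q.b) ⊕ Fin Q.b)) → ℕ :=
    fun c => ∑ i ∈ Finset.univ.filter (fun i => Q.col i = c), o i with ho'
  have hs : ∑ c, o' c = ∑ i, o i := Finset.sum_fiberwise_of_maps_to
    (fun _ _ => Finset.mem_univ _) _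
  rw [← hs]
  refine le_order_det _ z o' (fun c r => MΦ_an Q A b hF hF.dF c r) fun c r => ?_
  by_cases hc : ∃ i, Q.col i = c
  · obtain ⟨i, rfl⟩ := hc
    have hoi : o' (Q.col i) = o i := by
      simp only [ho']
      rw [Q.filter_col i, Finset.sum_singleton]
    rw [hoi]
    rcases r with r | r | r
    · have e : (fun w => Q.MΦ A b (F w) (dF F w) (Q.col i) (Sum.inl r)) = fun _ => 0 := by
        funext w
        rw [Frame.MΦ, Basis.toMatrix_apply, Sys.rowsΦ, Sum.elim_inl, Q.repr_col,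
          Q.mem_I.mp (hA r) i]
      rw [e]
      have h0 : analyticOrderAt (fun _ : ℂ => (0 : ℂ)) z = ⊤ := by
        rw [analyticOrderAt_eq_top]
        exact Filter.Eventually.of_forall fun _ => rfl
      rw [h0]
      exact le_top
    · have e : (fun w => Q.MΦ A b (F w) (dF F w) (Q.col i) (Sum.inr (Sum.inl r)))
          = (fun w => Q.ℓ i (F w)) * fun _ => Q.evX i (Q.eX r) := by
        funext w
        rw [Frame.MΦ, Basis.toMatrix_apply, Sys.rowsΦ, Sum.elim_inr,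
            Sum.elim_inl, Q.repr_col, Q.mul]
        rfl
      rw [e, analyticOrderAt_mul (hF.lin _) analyticAt_const]
      exact (h1 i).trans le_self_add
    · have e : (fun w => Q.MΦ A b (F w) (dF F w) (Q.col i) (Sum.inr (Sum.inr r)))
          = (fun w => Q.ℓ i (dF F w)) * fun _ => Q.evX i (b r) := by
        funext w
        rw [Frame.MΦ, Basis.toMatrix_apply, Sys.rowsΦ, Sum.elim_inr,
            Sum.elim_inr, Q.repr_col, Q.mul]
        rfl
      rw [e, analyticOrderAt_mul (hF.dF.lin _) analyticAt_const]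
      exact (h2 i).trans le_self_add
  · have h0 : o' c = 0 := by
      simp only [ho']
      apply Finset.sum_eq_zero
      intro i hi
      exact absurd ⟨i, (Finset.mem_filter.mp hi).2⟩ hc
    rw [h0]
    simp

end

/-- the Wronskian of two functions with a slowly oscillating ratio -/
theorem wr_local {f g : ℂ → ℂ} {z : ℂ} {ε B : ℝ} (hε : 0 < ε)
    (hf : ∀ w ∈ closedBall z ε, AnalyticAt ℂ f w) (hg : ∀ w ∈ closedBall z ε, AnalyticAt ℂ g w)
    (hne : ∀ w ∈ closedBall z ε, f w ≠ 0)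
    (hb : ∀ w ∈ closedBall z ε, ‖g w / f w‖ ≤ B * ‖g z / f z‖) :
    ‖f z * deriv g z - deriv f z * g z‖ ≤ B / ε * (‖f z‖ * ‖g z‖) := by
  have hz : z ∈ closedBall z ε := mem_closedBall_self hε.le
  have h1 : ‖deriv (fun w => g w / f w) z‖ ≤ B * ‖g z / f z‖ / ε := by
    apply Complex.norm_deriv_le_of_forall_mem_sphere_norm_le hε
    · apply DifferentiableOn.diffContOnCl
      rw [closure_ball z hε.ne']
      intro w hw
      exact ((hg w hw).fun_div (hf w hw) (hne w hw)).differentiableAt.differentiableWithinAt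
    · exact fun w hw => hb w (sphere_subset_closedBall hw)
  have hfz : f z ≠ 0 := hne z hz
  have h2 : deriv (fun w => g w / f w) z = (deriv g z * f z - g z * deriv f z) / f z ^ 2 :=
    deriv_fun_div (hg z hz).differentiableAt (hf z hz).differentiableAt hfz
  have h3 : f z * deriv g z - deriv f z * g z = deriv (fun w => g w / f w) z * f z ^ 2 := by
    rw [h2]
    field_simp
  have hp : 0 < ‖f z‖ := norm_pos_iff.mpr hfz
  rw [h3, norm_mul, norm_pow]
  calc ‖deriv (fun w => g w / f w) z‖ * ‖f z‖ ^ 2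
      ≤ (B * ‖g z / f z‖ / ε) * ‖f z‖ ^ 2 := mul_le_mul_of_nonneg_right h1 (by positivity)
    _ = B / ε * (‖f z‖ * ‖g z‖) := by
        rw [norm_div]
        field_simp

section

variable {m p : ℕ} {L X Y : Type*} [AddCommGroup L] [Module ℂ L] [AddCommGroup X]
    [Module ℂ X] [AddCommGroup Y] [Module ℂ Y] (Q : Frame m (p + 1) L X Y)

theorem P_point_at {A : Fin Q.c → Y} (hA : ∀ a, A a ∈ Q.I) :
    ∃ C : ℝ, 1 ≤ C ∧ ∀ (F : ℂ → Fin m → ℂ) (z : ℂ) (ε B : ℝ),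
      0 < ε → ε ≤ 1 → 1 ≤ B → (∀ w ∈ closedBall z ε, AnA F w) → F z ≠ 0 →
      (∀ i, ∀ w ∈ closedBall z ε, Q.U F i w ≠ 0) →
      (∀ i j, ∀ w ∈ closedBall z ε, ‖Q.U F j w / Q.U F i w‖ ≤ B * ‖Q.U F j z / Q.U F i z‖) →
      ‖Q.P A F z‖ * sup (Q.U F) z ^ (p + 1)
        ≤ C * (B / ε) ^ Q.N * sup (Q.U F) z ^ (Q.b + Q.b) * ∏ i, ‖Q.U F i z‖ := by
  obtain ⟨C, hC1, hC⟩ := Q.G_bound hA
  refine ⟨C, hC1, ?_⟩
  intro F z ε B hε hε1 hB hF hnz hne hb
  have hzz : z ∈ closedBall z ε := mem_closedBall_self hε.le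
  obtain ⟨i0, hi0⟩ := sup_attained (Q.U F) z
  have hU0 : Q.U F i0 z ≠ 0 := hne i0 z hzz
  set t : ℂ := -(deriv (Q.U F i0) z / Q.U F i0 z) with ht
  have hE : 1 ≤ B / ε := by
    rw [le_div_iff₀ hε]
    linarith
  have h := hC (F z) (dF F z + t • F z) (sup (Q.U F) z) (B / ε) hnz
    (sup_pos (hne 0 z hzz)) hE (fun i => le_sup (Q.U F) z i) ⟨i0, hi0.symm⟩ (by
      intro i
      have h1 := wr_local (f := Q.U F i0) (g := Q.U F i) hε (fun w hw => (hF w hw).lin _)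
        (fun w hw => (hF w hw).lin _) (hne i0) (hb i0 i)
      have h2 : Q.ℓ i (dF F z + t • F z)
          = (Q.U F i0 z * deriv (Q.U F i) z - deriv (Q.U F i0) z * Q.U F i z) / Q.U F i0 z := by
        have h3 : Q.ℓ i (dF F z) = deriv (Q.U F i) z := ((hF z hzz).lin_deriv (Q.ℓ i)).symm
        have h4 : Q.ℓ i (F z) = Q.U F i z := rfl
        rw [map_add, map_smul, h3, h4, ht, smul_eq_mul]
        field_simp
        ring
      have hp : 0 < ‖Q.U F i0 z‖ := norm_pos_iff.mpr hU0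
      rw [h2, norm_div, div_le_iff₀ hp]
      refine h1.trans (le_of_eq ?_)
      have h4 : Q.ℓ i (F z) = Q.U F i z := rfl
      rw [h4]
      ring)
  rw [Q.G_shift] at h
  exact h

end

end Pool.Agent.W601.PH
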