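import Pool.Agent.W601.PH.Elim
import Pool.Agent.W601.SM.Gen
import Pool.Agent.W603.BP.PSMain

/-!
Quasi-projective varieties with a morphism to projective space. The compactification `X` is a closed
subset of a product of two projective spaces, the boundary `D` is another one, and the morphism is
the second projection.
-/

set_option autoImplicit false

namespace Pool.Agent.W601.PH

open Filter Metric Set Topology Pool.Agent.W601.SM Pool.Agent.W603.BP MvPolynomial

variable {N n : ℕ}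

/-- the points of the quasi-projective variety `X - D`, in homogeneous coordinates -/
def QMem (X D : BiSet N n) (u : Fin (N + 1) → ℂ) (v : Fin (n + 1) → ℂ) : Prop :=
  X.Mem u v ∧ ¬ D.Mem u v

/-- entire curves (nonconstant by definition) in `X - D`, in homogeneous coordinates -/
structure QEntire (X D : BiSet N n) (u : ℂ → Fin (N + 1) → ℂ) (v : ℂ → Fin (n + 1) → ℂ) :
    Prop where
  diffu : Differentiable ℂ u
  diffv : Differentiable ℂ v
  mem : ∀ z, QMem X D (u z) (v z)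
  nonconst : ∃ z z', (∀ t : ℂ, u z' ≠ t • u z) ∨ (∀ t : ℂ, v z' ≠ t • v z)

/-- holomorphic maps from the punctured unit disc to `X - D`, in homogeneous coordinates -/
structure QDisc (X D : BiSet N n) (u : ℂ → Fin (N + 1) → ℂ) (v : ℂ → Fin (n + 1) → ℂ) :
    Prop where
  diffu : DifferentiableOn ℂ u (ball 0 1 \ {0})
  diffv : DifferentiableOn ℂ v (ball 0 1 \ {0})
  mem : ∀ z ∈ ball (0 : ℂ) 1 \ {0}, QMem X D (u z) (v z)

/-- germs of analytic arcs in `X - D`, in homogeneous coordinates -/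
structure QArc (X D : BiSet N n) (u : ℂ → Fin (N + 1) → ℂ) (v : ℂ → Fin (n + 1) → ℂ) :
    Prop where
  anu : ∀ j, AnalyticAt ℂ (fun z => u z j) 0
  anv : ∀ j, AnalyticAt ℂ (fun z => v z j) 0
  mem : ∀ᶠ z in 𝓝 0, QMem X D (u z) (v z)

/-- The projection of `X - D` to projective `n`-space is ramified over the hyperplanes `ℓ i` with
the weights `w i`: if an arc in `X - D` meets the hyperplanes with the finite multiplicities `a i`,
then the number of `i` with `0 < a i` is at most `∑ i, (1 - w i) * a i`. For instance `w i = 1` if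
the hyperplane `ℓ i` is not met by the image of `X - D`, and `w i = 1 - 1 / m` if it is met with
multiplicities at least `m` only. -/
def QRamified (X D : BiSet N n) {q : ℕ} (ℓ : Fin q → Fin (n + 1) → ℂ) (w : Fin q → ℝ) : Prop :=
  ∀ u v, QArc X D u v → ∀ a : Fin q → ℕ,
    (∀ i, analyticOrderAt (fun z => ∑ j, ℓ i j * v z j) 0 = a i) →
      ((Finset.univ.filter fun i => a i ≠ 0).card : ℝ) ≤ ∑ i, (1 - w i) * a i

/-- `X - D` is pseudo-Picard hyperbolic: all holomorphic maps from the punctured disc to `X - D`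
whose image is not contained in a certain proper closed subset extend to the disc. -/
def QPicard (X D : BiSet N n) : Prop := ∃ G : BiPoly N n, BiHom G ∧
  (∃ u v, QMem X D u v ∧ ev2 u v G ≠ 0) ∧
  ∀ u v, QDisc X D u v → (∃ z ∈ ball (0 : ℂ) 1 \ {0}, ev2 (u z) (v z) G ≠ 0) →
    Extends u ∧ Extends v

/-- `X - D` is pseudo-Brody hyperbolic: all entire curves in `X - D` lie in a certain proper closed
subset. -/
def QBrody (X D : BiSet N n) : Prop := ∃ G : BiPoly N n, BiHom G ∧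
  (∃ u v, QMem X D u v ∧ ev2 u v G ≠ 0) ∧ ∀ u v, QEntire X D u v → ∀ z, ev2 (u z) (v z) G = 0

theorem sin_not {m : ℕ} {f : ℂ → Fin (m + 1) → ℂ} (hf : Differentiable ℂ f)
    (hnz : ∀ z, f z ≠ 0) (hnc : ∃ z w, ∀ c : ℂ, f z ≠ c • f w) :
    ¬ Extends (fun w => f (Complex.sin w⁻¹)) := by
  have h1 : Pool.Agent.H159R3.GGLLog.EntireCurve (∅ : Set (Fin (m + 1)))
      (fun e : Empty => e.elim) f :=
    ⟨hf, fun z => ⟨hnz z, fun j hj => absurd hj (Set.notMem_empty j), fun e => e.elim⟩, hnc⟩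
  exact (sin_curve h1).2

theorem sin_diff {m : ℕ} {f : ℂ → Fin (m + 1) → ℂ} (hf : Differentiable ℂ f) :
    DifferentiableOn ℂ (fun w => f (Complex.sin w⁻¹)) (ball 0 1 \ {0}) := by
  intro w hw
  have hw0 : w ≠ 0 := hw.2
  have h1 : DifferentiableAt ℂ (fun w : ℂ => Complex.sin w⁻¹) w :=
    (Complex.differentiable_sin _).comp w (differentiableAt_inv hw0)
  exact ((hf _).comp w h1).differentiableWithinAt

/-- pseudo-Picard hyperbolicity implies pseudo-Brody hyperbolicity -/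
theorem QPicard.brody {X D : BiSet N n} (h : QPicard X D) : QBrody X D := by
  obtain ⟨G, hG, hne, hmain⟩ := h
  refine ⟨G, hG, hne, fun u v hc z => ?_⟩
  by_contra hz
  obtain ⟨w, hw, hwz⟩ := sin_point z
  obtain ⟨e1, e2⟩ := hmain (fun w => u (Complex.sin w⁻¹)) (fun w => v (Complex.sin w⁻¹))
    ⟨sin_diff hc.diffu, sin_diff hc.diffv, fun z _ => hc.mem _⟩
    ⟨w, hw, by simp only [hwz]; exact hz⟩
  obtain ⟨z1, z2, h12⟩ := hc.nonconst
  rcases h12 with h12 | h12
  · exact sin_not hc.diffu (fun z => (hc.mem z).1.1) ⟨z2, z1, h12⟩ e1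
  · exact sin_not hc.diffv (fun z => (hc.mem z).1.2.1) ⟨z2, z1, h12⟩ e2

theorem an_of_diffOn {m : ℕ} {f : ℂ → Fin (m + 1) → ℂ}
    (hf : DifferentiableOn ℂ f (ball 0 1 \ {0})) (j : Fin (m + 1)) :
    AnalyticOnNhd ℂ (fun w => f w j) (PB 1) := by
  intro w hw
  have h1 : DifferentiableOn ℂ (fun w => f w j) (ball 0 1 \ {0}) := by
    intro z hz
    exact (differentiableWithinAt_pi.mp (hf z hz)) j
  exact h1.analyticAt ((isOpen_ball.sdiff isClosed_singleton).mem_nhds (mem_disc.mpr hw))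

theorem gr_one {δ : ℂ → ℂ} (hδ : AnalyticOnNhd ℂ δ (ball 0 1)) {z0 : ℂ}
    (hz0 : z0 ∈ ball (0 : ℂ) 1) (h : δ z0 ≠ 0) : Gr (fun _ => 1) δ := by
  have h0 : (0 : ℂ) ∈ ball (0 : ℂ) 1 := mem_ball_self one_pos
  have hm : MeromorphicAt δ 0 := (hδ 0 h0).meromorphicAt
  have hn : Nz δ := by
    intro h1
    have h2 := hδ.eqOn_zero_of_preconnected_of_frequently_eq_zero
      (convex_ball (0 : ℂ) 1).isPreconnected h0 h1.frequently
    exact h (h2 hz0)
  apply MRel.gr
  refine ⟨fun w => (δ w)⁻¹, hm.fun_inv, ?_⟩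
  filter_upwards [mero_ne hm hn] with w hw
  exact (inv_mul_cancel₀ hw).symm

/-- a linear form which does not vanish at finitely many points -/
theorem exists_form_ne (T : Finset (Fin (N + 1) → ℂ)) :
    ∃ l : Fin (N + 1) → ℂ, ∀ t ∈ T, t ≠ 0 → ∑ j, l j * t j ≠ 0 := by
  classical
  have h1 : ∏ t ∈ T.filter (fun t => t ≠ 0), lin t ≠ 0 :=
    Finset.prod_ne_zero_iff.mpr fun t ht => lin_ne (Finset.mem_filter.mp ht).2
  obtain ⟨l, hl⟩ : ∃ l : Fin (N + 1) → ℂ, eval l (∏ t ∈ T.filter (fun t => t ≠ 0), lin t) ≠ 0 := by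
    by_contra hcon
    push Not at hcon
    exact h1 (MvPolynomial.funext fun x => by rw [hcon x, map_zero])
  refine ⟨l, fun t ht ht0 h => hl ?_⟩
  rw [map_prod]
  exact Finset.prod_eq_zero (Finset.mem_filter.mpr ⟨ht, ht0⟩) (by rw [eval_lin]; exact h)

/-- the lift to the fibres extends -/
theorem extends_lift {X : BiSet N n} {u : ℂ → Fin (N + 1) → ℂ} {v : ℂ → Fin (n + 1) → ℂ}
    (hu : ∀ j, AnalyticOnNhd ℂ (fun z => u z j) (PB 1)) (hmem : ∀ z ∈ PB 1, X.Mem (u z) (v z))
    (hv : Extends v) {z0 : ℂ} (hz0 : z0 ∈ PB 1)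
    (hfin : ∃ T : Finset (Fin (N + 1) → ℂ), ∀ u, X.Mem u (v z0) → ∃ t ∈ T, ∃ c : ℂ, u = c • t) :
    Extends u := by
  classical
  obtain ⟨g, hg1, hg2, hg3⟩ := hv
  obtain ⟨T, hT⟩ := hfin
  obtain ⟨l, hl⟩ := exists_form_ne T
  have hgan : ∀ j, AnalyticOnNhd ℂ (fun z => g z j) (ball 0 1) := by
    intro j z hz
    have h1 : DifferentiableOn ℂ (fun w => g w j) (ball 0 1) := by
      intro w hw
      exact (differentiableWithinAt_pi.mp (hg1 w hw)) j
    exact h1.analyticAt (isOpen_ball.mem_nhds hz)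
  -- the equations along the extended curve
  have hsc : ∀ z ∈ PB 1, ∀ x : Fin (N + 1) → ℂ, ∀ P ∈ X.I,
      ev2 x (v z) P = 0 ↔ ev2 x (g z) P = 0 := by
    intro z hz x P hP
    obtain ⟨c, hc⟩ := hg3 z (mem_disc.mpr hz)
    have hc0 : c ≠ 0 := by
      intro h0
      exact (hmem z hz).2.1 (by rw [hc, h0, zero_smul])
    obtain ⟨a, b, hab⟩ := X.hom P hP
    have h1 := hab 1 c x (g z)
    rw [one_smul, ← hc, one_pow, one_mul] at h1
    rw [h1]
    exact ⟨fun h => (mul_eq_zero.mp h).resolve_left (pow_ne_zero _ hc0), fun h => by rw [h, mul_zero]⟩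
  have hz0b : z0 ∈ ball (0 : ℂ) 1 := by simpa using hz0.2
  -- finitely many equations
  set S : Set (MvPolynomial (Fin (N + 1)) ℂ) := (fun P => pe (g z0) P) '' X.I with hS
  obtain ⟨s', hs's, hspan⟩ := (Submodule.fg_span_iff_fg_span_finset_subset
    (R := MvPolynomial (Fin (N + 1)) ℂ) S).mp (IsNoetherian.noetherian _)
  have hch : ∀ x : s', ∃ P ∈ X.I, pe (g z0) P = x := fun x => hs's x.2
  choose Pf hPf1 hPf2 using hch
  obtain ⟨δ, hδan, hδ0, C, hC⟩ := elim Pf (fun s => X.hom _ (hPf1 s)) hgan (z0 := z0) l (by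
    intro x hx hlx
    by_contra hx0
    have hall : ∀ P ∈ X.I, ev2 x (g z0) P = 0 := by
      intro P hP
      have h1 : pe (g z0) P ∈ Submodule.span (MvPolynomial (Fin (N + 1)) ℂ)
          (s' : Set (MvPolynomial (Fin (N + 1)) ℂ)) := by
        rw [← hspan]
        exact Submodule.subset_span ⟨P, hP, rfl⟩
      have h2 : Submodule.span (MvPolynomial (Fin (N + 1)) ℂ)
          (s' : Set (MvPolynomial (Fin (N + 1)) ℂ)) ≤ RingHom.ker (eval x) := by
        rw [Submodule.span_le]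
        intro y hy
        have h3 := hx ⟨y, hy⟩
        rw [← eval_pe, hPf2] at h3
        exact (RingHom.mem_ker).mpr h3
      have h3 := h2 h1
      rw [RingHom.mem_ker, eval_pe] at h3
      exact h3
    obtain ⟨t, ht, c, hct⟩ := hT x ⟨hx0, (hmem z0 hz0).2.1, fun P hP =>
      (hsc z0 hz0 x P hP).mpr (hall P hP)⟩
    have ht0 : t ≠ 0 := by
      intro h0
      exact hx0 (by rw [hct, h0, smul_zero])
    have hc0 : c ≠ 0 := by
      intro h0
      exact hx0 (by rw [hct, h0, zero_smul])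
    apply hl t ht ht0
    have h4 : ∑ j, l j * x j = c * ∑ j, l j * t j := by
      rw [hct, Finset.mul_sum]
      exact Finset.sum_congr rfl fun j _ => by rw [Pi.smul_apply, smul_eq_mul]; ring
    rw [h4] at hlx
    exact (mul_eq_zero.mp hlx).resolve_left hc0)
  obtain ⟨C', K, hCK⟩ := gr_one hδan hz0b hδ0
  have hP : ∀ j, Pun (fun w => u w j) := fun j => on_pun one_pos (hu j)
  have hlan : AnalyticOnNhd ℂ (fun w => ∑ j, l j * u w j) (PB 1) := fun z hz =>
    Finset.analyticAt_fun_sum _ fun j _ => analyticAt_const.fun_mul (hu j z hz)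
  have hest : ∀ᶠ w in 𝓝[≠] (0 : ℂ), ‖u w‖ * ‖w‖ ^ K ≤ (|C'| * C) * ‖∑ j, l j * u w j‖ := by
    filter_upwards [hCK, PB_mem (show (0 : ℝ) < 1 / 2 by norm_num)] with w h1 h2
    have hw1 : w ∈ PB 1 := PB_mono (by norm_num) h2
    have h3 := hC w h2.2.le (u w) (fun s => (hsc w hw1 _ _ (hPf1 s)).mp
      ((hmem w hw1).2.2 _ (hPf1 s)))
    rw [norm_one, one_mul] at h1
    have h4 : ‖w‖ ^ K ≤ |C'| * ‖δ w‖ :=
      h1.trans (mul_le_mul_of_nonneg_right (le_abs_self _) (norm_nonneg _))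
    calc ‖u w‖ * ‖w‖ ^ K ≤ ‖u w‖ * (|C'| * ‖δ w‖) :=
          mul_le_mul_of_nonneg_left h4 (norm_nonneg _)
      _ = |C'| * (‖δ w‖ * ‖u w‖) := by ring
      _ ≤ |C'| * (C * ‖∑ j, l j * u w j‖) := mul_le_mul_of_nonneg_left h3 (abs_nonneg _)
      _ = _ := by ring
  have hnz : Nz (fun w => ∑ j, l j * u w j) := by
    intro h0
    obtain ⟨w, h1, h2, h3⟩ := (hest.and (h0.and (PB_mem one_pos))).exists
    have h5 : w ≠ 0 := h3.1
    have h2' : ∑ j, l j * u w j = 0 := h2
    rw [h2', norm_zero, mul_zero] at h1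
    have h6 : 0 < ‖u w‖ * ‖w‖ ^ K :=
      mul_pos (norm_pos_iff.mpr (hmem w h3).1) (pow_pos (norm_pos_iff.mpr h5) _)
    linarith
  refine extends_mrel hu (fun z hz => (hmem z hz).1) (h := fun w => ∑ j, l j * u w j) fun j => ?_
  refine growth_mero (hP j) (on_pun one_pos hlan) hnz ⟨|C'| * C, K, ?_⟩
  filter_upwards [hest] with w hw
  exact (mul_le_mul_of_nonneg_right (norm_le_pi_norm (u w) j) (by positivity)).trans hw

/-- The main theorem. -/
theorem picard_main {q k : ℕ} (hn : 1 ≤ n) {ℓ : Fin q → Fin (n + 1) → ℂ} (hI : Ind k ℓ)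
    {w : Fin q → ℝ} (hw : ∀ i, 0 ≤ w i ∧ w i ≤ 1)
    (hq : 2 * (((n + k - 1).choose (n - 1) : ℕ) : ℝ) < ∑ i, w i)
    (X D : BiSet N n) (hX : QRamified X D ℓ w) :
    (∀ u v, QDisc X D u v →
      (∃ i, ∀ z ∈ ball (0 : ℂ) 1 \ {0}, ∑ j, ℓ i j * v z j = 0) ∨ Extends v) ∧
    (X.Irred → X.GenFinite → (∃ u v, QMem X D u v) →
      (∀ i, ∃ u v, X.Mem u v ∧ ∑ j, ℓ i j * v j ≠ 0) → QPicard X D) := by
  classical
  have hcurve : ∀ u v, QDisc X D u v →
      (∃ i, ∀ z ∈ ball (0 : ℂ) 1 \ {0}, ∑ j, ℓ i j * v z j = 0) ∨ Extends v := by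
    intro u v h
    have hv := fun j => an_of_diffOn h.diffv j
    have hu := fun j => an_of_diffOn h.diffu j
    have hmem : ∀ z ∈ PB 1, QMem X D (u z) (v z) := fun z hz => h.mem z (mem_disc.mpr hz)
    rcases curve_picard hn hI (fun i => (hw i).1) (fun i => (hw i).2) hq hv
      (fun z hz => (hmem z hz).1.2.1) (by
        intro z hz a ha
        have hord : ∀ i, analyticOrderAt (fun w => ∑ j, ℓ i j * v (w + z) j) 0 = a i := by
          intro i
          have e1 : (fun w => ∑ j, ℓ i j * v (w + z) j)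
              = (fun w => ∑ j, ℓ i j * v w j) ∘ fun w => w + z := rfl
          have hd : deriv (fun w : ℂ => w + z) 0 ≠ 0 := by
            rw [deriv_add_const, deriv_id'']
            exact one_ne_zero
          rw [e1, analyticOrderAt_comp_of_deriv_ne_zero (by fun_prop) hd, zero_add]
          exact ha i
        have hsh : AnalyticAt ℂ (fun w : ℂ => w + z) 0 := by fun_prop
        have harc : QArc X D (fun w => u (w + z)) (fun w => v (w + z)) := by
          refine ⟨fun j => ?_, fun j => ?_, ?_⟩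
          · exact (hu j z hz).comp_of_eq hsh (zero_add z)
          · exact (hv j z hz).comp_of_eq hsh (zero_add z)
          · have h1 : Tendsto (fun w : ℂ => w + z) (𝓝 0) (𝓝 z) := by
              have h2 : ContinuousAt (fun w : ℂ => w + z) 0 := by fun_prop
              have h3 := h2.tendsto
              simpa using h3
            exact (h1.eventually ((PB_open 1).mem_nhds hz)).mono fun w hw => hmem _ hw
        exact hX _ _ harc a hord) with h1 | ⟨h0, _, _, hr⟩
    · left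
      obtain ⟨i, hi⟩ := h1
      exact ⟨i, fun z hz => hi z (mem_disc.mp hz)⟩
    · right
      exact extends_mrel hv (fun z hz => (hmem z hz).1.2.1) hr
  refine ⟨hcurve, fun hirr hfin hne0 hne => ?_⟩
  obtain ⟨D0, e, hD, hDne, hDfin⟩ := hfin
  set R : Option (Fin q) → MvPolynomial (Fin (n + 1)) ℂ :=
    fun i => i.elim D0 fun i => lin (ℓ i) with hR
  set ee : Option (Fin q) → ℕ := fun i => i.elim e fun _ => 1 with hee
  have hRhom : ∀ i, (R i).IsHomogeneous (ee i) := by
    intro i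
    rcases i with _ | i
    · exact hD
    · exact lin_hom _
  have hRℓ : ∀ i v, eval v (R (some i)) = ∑ j, ℓ i j * v j := by
    intro i v
    have : R (some i) = lin (ℓ i) := rfl
    rw [this, eval_lin]
    exact Finset.sum_congr rfl fun j _ => mul_comm _ _
  have hR0 : ∀ v, eval v (R none) = eval v D0 := fun v => rfl
  have hRR : (∏ i, R i).IsHomogeneous (∑ i, ee i) := IsHomogeneous.prod _ R ee fun i _ => hRhom i
  obtain ⟨u0, v0, h0, h0ne⟩ := irred_prod hirr Finset.univ R ee hRhom (by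
    intro i _
    rcases i with _ | i
    · exact hDne
    · obtain ⟨u, v, huv, hne⟩ := hne i
      exact ⟨u, v, huv, by rw [hRℓ]; exact hne⟩)
  -- a point outside the boundary
  have hout : ∃ u v, QMem X D u v ∧ ev2 u v (rename Sum.inr (∏ i, R i) : BiPoly N n) ≠ 0 := by
    obtain ⟨u1, v1, hm1, hd1⟩ := hne0
    have hP : ∃ P ∈ D.I, ev2 u1 v1 P ≠ 0 := by
      by_contra hcon
      push Not at hcon
      exact hd1 ⟨hm1.1, hm1.2.1, hcon⟩
    obtain ⟨P, hPD, hP1⟩ := hP
    by_contra hcon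
    push Not at hcon
    rcases hirr.2 P (rename Sum.inr (∏ i, R i)) (D.hom P hPD) (biHom_inr hRR) (by
      intro u v huv
      rw [ev2_mul]
      by_cases hPv : ev2 u v P = 0
      · rw [hPv, zero_mul]
      · rw [hcon u v ⟨huv, fun hd => hPv (hd.2.2 P hPD)⟩, mul_zero]) with h1 | h1
    · exact hP1 (h1 u1 v1 hm1)
    · exact h0ne (by rw [← ev2_inr (N := N) u0]; exact h1 u0 v0 h0)
  refine ⟨rename Sum.inr (∏ i, R i), biHom_inr hRR, hout, ?_⟩
  rintro u v h ⟨z0, hz0, hz0ne⟩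
  rw [ev2_inr, map_prod, Finset.prod_ne_zero_iff] at hz0ne
  have hE : Extends v := by
    rcases hcurve u v h with ⟨i, hi⟩ | hE
    · exact absurd (by rw [hRℓ]; exact hi z0 hz0) (hz0ne (some i) (Finset.mem_univ _))
    · exact hE
  refine ⟨?_, hE⟩
  exact extends_lift (fun j => an_of_diffOn h.diffu j)
    (fun z hz => (h.mem z (mem_disc.mpr hz)).1) hE (mem_disc.mp hz0)
    (hDfin (v z0) (hz0ne none (Finset.mem_univ _)))

/-- for all large `q` there is a suitable degree -/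
theorem numbers2 (n : ℕ) (hn : 1 ≤ n) (s : ℝ) (hs : 0 < s) (K q : ℕ)
    (hK : 2 * n ≤ K * s) (hq : (n + K).choose n < q) :
    ∃ k, q ≤ (n + k).choose n ∧ 2 * (((n + k - 1).choose (n - 1) : ℕ) : ℝ) < q * s := by
  classical
  obtain ⟨m, rfl⟩ : ∃ m, n = m + 1 := ⟨n - 1, by omega⟩
  have hmono : ∀ k, (m + 1 + k).choose (m + 1) < (m + 1 + (k + 1)).choose (m + 1) := by
    intro k
    have h1 : (m + 1 + (k + 1)).choose (m + 1)
        = (m + 1 + k).choose m + (m + 1 + k).choose (m + 1) := by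
      rw [← add_assoc, Nat.choose_succ_succ]
    have h2 : 0 < (m + 1 + k).choose m := Nat.choose_pos (by omega)
    omega
  have hsm : StrictMono fun k => (m + 1 + k).choose (m + 1) := strictMono_nat_of_lt_succ hmono
  have hex : ∃ k, q ≤ (m + 1 + k).choose (m + 1) := ⟨q, hsm.id_le q⟩
  set k := Nat.find hex with hk
  have hk1 : q ≤ (m + 1 + k).choose (m + 1) := Nat.find_spec hex
  have hKk : K < k := by
    by_contra hcon
    push Not at hcon
    have h1 : (m + 1 + k).choose (m + 1) ≤ (m + 1 + K).choose (m + 1) := hsm.monotone hcon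
    omega
  obtain ⟨j, hj⟩ : ∃ j, k = j + 1 := ⟨k - 1, by omega⟩
  have hk2 : (m + 1 + j).choose (m + 1) < q := by
    have := Nat.find_min hex (m := j) (by omega)
    omega
  refine ⟨k, hk1, ?_⟩
  rw [hj]
  have e1 : m + 1 + (j + 1) - 1 = m + 1 + j := by omega
  have e2 : m + 1 - 1 = m := by omega
  rw [e1, e2]
  have h3 : (m + 1 + j).choose (m + 1) * (m + 1) = (m + 1 + j).choose m * (j + 1) := by
    rw [Nat.choose_succ_right_eq]
    congr 1
    omega
  set c1 := (m + 1 + j).choose (m + 1) with hc1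
  set c0 := (m + 1 + j).choose m with hc0
  have hc0pos : 0 < c0 := Nat.choose_pos (by omega)
  have h5 : ((K : ℝ)) ≤ (j + 1 : ℕ) := by
    exact_mod_cast (by omega : K ≤ j + 1)
  have h6 : 2 * ((m + 1 : ℕ) : ℝ) ≤ (j + 1 : ℕ) * s :=
    hK.trans (mul_le_mul_of_nonneg_right h5 hs.le)
  have h7 : (c1 : ℝ) * (m + 1 : ℕ) = c0 * (j + 1 : ℕ) := by exact_mod_cast h3
  have h8 : (c1 : ℝ) < q := by exact_mod_cast hk2
  have hmpos : (0 : ℝ) < (m + 1 : ℕ) := by positivity
  have h9 : (2 * (c0 : ℝ)) * (m + 1 : ℕ) < (q * s) * (m + 1 : ℕ) := by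
    calc (2 * (c0 : ℝ)) * (m + 1 : ℕ) = c0 * (2 * ((m + 1 : ℕ) : ℝ)) := by ring
      _ ≤ c0 * ((j + 1 : ℕ) * s) :=
          mul_le_mul_of_nonneg_left h6 (by exact_mod_cast hc0pos.le)
      _ = (c1 * (m + 1 : ℕ)) * s := by rw [h7]; ring
      _ < (q * (m + 1 : ℕ)) * s := by
          apply mul_lt_mul_of_pos_right _ hs
          exact mul_lt_mul_of_pos_right h8 hmpos
      _ = _ := by ring
  exact lt_of_mul_lt_mul_right h9 hmpos.le

end Pool.Agent.W601.PH
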